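import Pool.Agent.W_c0lo_h38.Defs

/-!
# MP_c0ce05_co: lower bounds at precision `O(1)`

Position: `C` = edges of the claimer, `K` = edges of the killer, `D` = set of links, a link is an
ordered pair of edges whose first edge belongs to the claimer. A link `(e, f)` crosses the pair
`(A, B)` of vertex sets if one of `e`, `f` is an edge of `A` only and the other one of `B` only.
-/

set_option autoImplicit false

namespace C0l1

open scoped Classical
open C0lo

variable {N : ℕ}

/-- the link `l` crosses the pair `p` -/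
def cr (l : Sym2 (Fin N) × Sym2 (Fin N)) (p : Finset (Fin N) × Finset (Fin N)) : Prop :=
  (l.1 ∈ ed p.1 \ ed p.2 ∧ l.2 ∈ ed p.2 \ ed p.1) ∨
    (l.1 ∈ ed p.2 \ ed p.1 ∧ l.2 ∈ ed p.1 \ ed p.2)

/-- the number of links which cross the pair `p` -/
noncomputable def kap (D : Finset (Sym2 (Fin N) × Sym2 (Fin N)))
    (p : Finset (Fin N) × Finset (Fin N)) : ℕ :=
  (D.filter (fun l => cr l p)).card

/-- the weight of a pair -/
noncomputable def y (g : ℕ → ℝ) (C K : Finset (Sym2 (Fin N)))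
    (D : Finset (Sym2 (Fin N) × Sym2 (Fin N))) (p : Finset (Fin N) × Finset (Fin N)) : ℝ :=
  C0lo.y g C K p * (3 / 4) ^ kap D p

/-- the potential of the family `F` -/
noncomputable def Lam (g : ℕ → ℝ) (C K : Finset (Sym2 (Fin N)))
    (D : Finset (Sym2 (Fin N) × Sym2 (Fin N))) (F : Finset (Finset (Fin N))) : ℝ :=
  ∑ A ∈ F, x 2 C K A - ∑ p ∈ F ×ˢ F, y g C K D p

/-- total weight of the pairs of `F` whose union contains the edge `e` -/
noncomputable def z (g : ℕ → ℝ) (C K : Finset (Sym2 (Fin N)))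
    (D : Finset (Sym2 (Fin N) × Sym2 (Fin N))) (F : Finset (Finset (Fin N)))
    (e : Sym2 (Fin N)) : ℝ :=
  ∑ p ∈ F ×ˢ F, if e ∈ ed p.1 ∪ ed p.2 then y g C K D p else 0

/-- total weight of the pairs of `F` which are crossed by `(e, f)` -/
noncomputable def zc (g : ℕ → ℝ) (C K : Finset (Sym2 (Fin N)))
    (D : Finset (Sym2 (Fin N) × Sym2 (Fin N))) (F : Finset (Finset (Fin N)))
    (e f : Sym2 (Fin N)) : ℝ :=
  ∑ p ∈ F ×ˢ F, if cr (e, f) p then y g C K D p else 0

/-- total weight of the pairs of `F` whose union contains `e` and `f` and which are not crossed by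
`(e, f)` -/
noncomputable def zi (g : ℕ → ℝ) (C K : Finset (Sym2 (Fin N)))
    (D : Finset (Sym2 (Fin N) × Sym2 (Fin N))) (F : Finset (Finset (Fin N)))
    (e f : Sym2 (Fin N)) : ℝ :=
  ∑ p ∈ F ×ˢ F, if (e ∈ ed p.1 ∪ ed p.2 ∧ f ∈ ed p.1 ∪ ed p.2) ∧ ¬ cr (e, f) p
    then y g C K D p else 0

/-- the gain of Maker when he claims `e` with the link `(e, f)` -/
noncomputable def gainM (g : ℕ → ℝ) (C K : Finset (Sym2 (Fin N)))
    (D : Finset (Sym2 (Fin N) × Sym2 (Fin N))) (F : Finset (Finset (Fin N)))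
    (e f : Sym2 (Fin N)) : ℝ :=
  t 2 C K F e - z g C K D F e + zc g C K D F e f / 2

/-- the gain of Forcer when he kills `e` -/
noncomputable def gainF (g : ℕ → ℝ) (C K : Finset (Sym2 (Fin N)))
    (D : Finset (Sym2 (Fin N) × Sym2 (Fin N))) (F : Finset (Finset (Fin N)))
    (e : Sym2 (Fin N)) : ℝ :=
  z g C K D F e - t 2 C K F e

/-- every edge is the first edge of at most one link -/
def Fun (D : Finset (Sym2 (Fin N) × Sym2 (Fin N))) : Prop :=
  ∀ l ∈ D, ∀ l' ∈ D, l.1 = l'.1 → l = l'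

/-! ### Basic facts -/

variable {g : ℕ → ℝ} {C K : Finset (Sym2 (Fin N))} {D : Finset (Sym2 (Fin N) × Sym2 (Fin N))}
  {F : Finset (Finset (Fin N))}

theorem cr_left {e f : Sym2 (Fin N)} {p : Finset (Fin N) × Finset (Fin N)} (h : cr (e, f) p) :
    e ∈ ed p.1 ∪ ed p.2 := by
  rcases h with ⟨h, _⟩ | ⟨h, _⟩
  · exact Finset.mem_union_left _ (Finset.mem_sdiff.1 h).1
  · exact Finset.mem_union_right _ (Finset.mem_sdiff.1 h).1

theorem cr_right {e f : Sym2 (Fin N)} {p : Finset (Fin N) × Finset (Fin N)} (h : cr (e, f) p) :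
    f ∈ ed p.1 ∪ ed p.2 := by
  rcases h with ⟨_, h⟩ | ⟨_, h⟩
  · exact Finset.mem_union_right _ (Finset.mem_sdiff.1 h).1
  · exact Finset.mem_union_left _ (Finset.mem_sdiff.1 h).1

theorem cr_swap {e f : Sym2 (Fin N)} {p : Finset (Fin N) × Finset (Fin N)} :
    cr (e, f) p ↔ cr (f, e) p := by
  unfold cr
  dsimp only
  tauto

theorem cr_comm {l : Sym2 (Fin N) × Sym2 (Fin N)} {A B : Finset (Fin N)} :
    cr l (A, B) ↔ cr l (B, A) := by
  unfold cr
  dsimp only
  tauto

/-- two edges in the union of a pair which do not cross it lie in the same set -/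
theorem not_cr {e f : Sym2 (Fin N)} {p : Finset (Fin N) × Finset (Fin N)}
    (he : e ∈ ed p.1 ∪ ed p.2) (hf : f ∈ ed p.1 ∪ ed p.2) (h : ¬ cr (e, f) p) :
    (e ∈ ed p.1 ∧ f ∈ ed p.1) ∨ (e ∈ ed p.2 ∧ f ∈ ed p.2) := by
  unfold cr at h
  rw [Finset.mem_union] at he hf
  simp only [Finset.mem_sdiff] at h
  tauto

theorem kap_comm {A B : Finset (Fin N)} : kap D (A, B) = kap D (B, A) := by
  unfold kap
  congr 1
  ext l
  simp only [Finset.mem_filter, cr_comm (A := A) (B := B)]

theorem y_nonneg (hg : ∀ j, 0 ≤ g j) {p : Finset (Fin N) × Finset (Fin N)} :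
    0 ≤ y g C K D p :=
  mul_nonneg (C0lo.y_nonneg hg) (by positivity)

theorem y_comm {A B : Finset (Fin N)} : y g C K D (A, B) = y g C K D (B, A) := by
  unfold y
  rw [C0lo.y_comm, kap_comm]

theorem y_self {A : Finset (Fin N)} : y g C K D (A, A) = 0 := by
  unfold y C0lo.y
  rw [if_pos rfl, zero_mul]

theorem kap_insert {l : Sym2 (Fin N) × Sym2 (Fin N)} (hl : l ∉ D)
    (p : Finset (Fin N) × Finset (Fin N)) :
    kap (insert l D) p = if cr l p then kap D p + 1 else kap D p := by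
  unfold kap
  rw [Finset.filter_insert]
  split_ifs
  · rw [Finset.card_insert_of_notMem (fun h => hl (Finset.mem_filter.1 h).1)]
  · rfl

/-- claiming `e` with the link `(e, f)` -/
theorem y_claim {e f : Sym2 (Fin N)} (he : e ∉ C) (hl : (e, f) ∉ D)
    (p : Finset (Fin N) × Finset (Fin N)) :
    y g (insert e C) K (insert (e, f) D) p = y g C K D p +
      (if e ∈ ed p.1 ∪ ed p.2 then y g C K D p else 0) -
      (if cr (e, f) p then y g C K D p else 0) / 2 := by
  unfold y
  rw [C0lo.y_claim he, kap_insert hl]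
  by_cases h1 : cr (e, f) p
  · have h2 := cr_left h1
    rw [if_pos h2, if_pos h1, if_pos h1, if_pos h2, pow_succ]
    ring
  · rw [if_neg h1, if_neg h1]
    split_ifs <;> ring

/-- killing `f` -/
theorem y_kill {f : Sym2 (Fin N)} (p : Finset (Fin N) × Finset (Fin N)) :
    y g C (insert f K) D p = if f ∈ ed p.1 ∪ ed p.2 then 0 else y g C K D p := by
  unfold y
  rw [C0lo.y_kill]
  split_ifs
  · rw [zero_mul]
  · rfl

/-- claiming `e` and `e'` with the single link `(e, e')` -/
theorem y_claim_two {e e' : Sym2 (Fin N)} (he : e ∉ C) (he' : e' ∉ insert e C)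
    (hl : (e, e') ∉ D) (p : Finset (Fin N) × Finset (Fin N)) :
    y g (insert e' (insert e C)) K (insert (e, e') D) p =
      (if cr (e, e') p then 3 * y g C K D p else
        if e ∈ ed p.1 ∪ ed p.2 then (if e' ∈ ed p.1 ∪ ed p.2 then 4 * y g C K D p
          else 2 * y g C K D p) else (if e' ∈ ed p.1 ∪ ed p.2 then 2 * y g C K D p
          else y g C K D p)) := by
  unfold y
  rw [C0lo.y_claim he', C0lo.y_claim he, kap_insert hl]
  by_cases h1 : cr (e, e') p
  · rw [if_pos (cr_left h1), if_pos (cr_right h1), if_pos h1, if_pos h1, pow_succ]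
    ring
  · rw [if_neg h1, if_neg h1]
    split_ifs <;> ring

end C0l1
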