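import Pool.Agent.W_c0l1_h38.Par
import Pool.Agent.W_c0lo_h38.InitY

/-! # The initial value of the potential -/

set_option autoImplicit false

namespace C0l1

open scoped Classical
open C0lo

variable {N q : ℕ}

/-- the family of all `q`-sets -/
noncomputable def QQ (N q : ℕ) : Finset (Finset (Fin N)) :=
  (Finset.univ : Finset (Fin N)).powersetCard q

theorem QQ_card {A : Finset (Fin N)} (hA : A ∈ QQ N q) : A.card = q :=
  (Finset.mem_powersetCard.1 hA).2

theorem init_x : ∑ A ∈ QQ N q, x 2 ∅ ∅ A = T0 N q := by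
  have h1 : ∀ A ∈ QQ N q, x 2 ∅ ∅ A = ((2 : ℝ)⁻¹) ^ (q.choose 2) := by
    intro A hA
    have hc := QQ_card hA
    unfold x w
    rw [if_pos (Finset.disjoint_empty_right _), Finset.sdiff_empty, card_ed, hc]
  rw [Finset.sum_congr rfl h1, Finset.sum_const]
  unfold QQ T0
  rw [Finset.card_powersetCard, Finset.card_univ, Fintype.card_fin, nsmul_eq_mul, inv_pow]
  rfl

theorem init_y_le (h : Cond N q) :
    ∑ p ∈ QQ N q ×ˢ QQ N q, y (gg N q) ∅ ∅ ∅ p ≤ T0 N q / 8 := by
  have hT := T0_pos h
  have hq := h.hq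
  have hNN := h.hN
  have hqN := h.hqN
  have h0 : ∑ p ∈ QQ N q ×ˢ QQ N q, y (gg N q) ∅ ∅ ∅ p ≤
      ∑ p ∈ QQ N q ×ˢ QQ N q, C0lo.y (gg N q) ∅ ∅ p := by
    refine Finset.sum_le_sum fun p _ => ?_
    unfold y
    refine mul_le_of_le_one_right (C0lo.y_nonneg (gg_nonneg N q)) ?_
    exact pow_le_one₀ (by norm_num) (by norm_num)
  refine h0.trans ((init_y (gg_nonneg N q)).trans ?_)
  rw [Finset.mul_sum]
  have hterm : ∀ j ∈ Finset.range q, (N.choose q : ℝ) * ((q.choose j : ℝ) *
      (N.choose (q - j) : ℝ) * gg N q j * (1 / 2) ^ (2 * q.choose 2 - j.choose 2)) ≤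
      T0 N q / (8 * q) := by
    intro j hj
    have hjq : j < q := Finset.mem_range.1 hj
    have hq0 : (0 : ℝ) < q := by exact_mod_cast (show 0 < q by omega)
    unfold gg
    split_ifs with h3
    · have : 0 ≤ T0 N q / (8 * q) := by positivity
      simpa using this
    · have hc1 : (0 : ℝ) < q.choose j := by exact_mod_cast Nat.choose_pos hjq.le
      have hc2 : (0 : ℝ) < N.choose (q - j) := by
        exact_mod_cast Nat.choose_pos (show q - j ≤ N by omega)
      have hc3 : j.choose 2 ≤ q.choose 2 := Nat.choose_le_choose 2 hjq.le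
      obtain ⟨d, hd⟩ : ∃ d, q.choose 2 = j.choose 2 + d := ⟨_, (Nat.add_sub_cancel' hc3).symm⟩
      have he : 2 * q.choose 2 - j.choose 2 = j.choose 2 + d + d := by omega
      unfold T0
      rw [he, hd, pow_add, pow_add, pow_add, one_div, inv_pow, inv_pow]
      apply le_of_eq
      field_simp
  refine (Finset.sum_le_sum hterm).trans ?_
  rw [Finset.sum_const, Finset.card_range, nsmul_eq_mul]
  have hq0 : (0 : ℝ) < q := by exact_mod_cast (show 0 < q by omega)
  apply le_of_eq
  field_simp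

end C0l1
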