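import Pool.Agent.W_c0l1_h38.LocD

/-! # The number of crossing links -/

set_option autoImplicit false

namespace C0l1

open scoped Classical
open C0lo

variable {N : ℕ} {C K : Finset (Sym2 (Fin N))}
  {D : Finset (Sym2 (Fin N) × Sym2 (Fin N))} {F : Finset (Finset (Fin N))}

/-- TASK LocB1. PROOF. For a fixed edge `f` either no `A ∈ sub F T` has `f ∈ ed A \ ed T` (then the
sum is `0`), or some `A` has it; then `f` is not a loop and has an end `v ∉ T` (otherwise
`f ∈ ed T` by `mem_ed`), and every `A ∈ sub F T` with `f ∈ ed A` contains `v`, hence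
`insert v T ⊆ A`: the sum is at most `am (insert v T) ≤ s * am T`. -/
theorem edge_mass {T : Finset (Fin N)} {s : ℝ} (hs : 0 ≤ s)
    (h : ∀ v, v ∉ T → am C K F (insert v T) ≤ s * am C K F T) (f : Sym2 (Fin N)) :
    ∑ A ∈ sub F T, (if f ∈ ed A \ ed T then x 2 C K A else 0) ≤ s * am C K F T := by
  by_cases hex : ∃ A ∈ sub F T, f ∈ ed A \ ed T
  · obtain ⟨A0, hA0, hf0⟩ := hex
    rw [Finset.mem_sdiff, mem_ed, mem_ed] at hf0
    obtain ⟨⟨_, hd⟩, hT⟩ := hf0
    have hv : ∃ v ∈ f, v ∉ T := by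
      by_contra hcon
      push Not at hcon
      exact hT ⟨hcon, hd⟩
    obtain ⟨v, hvf, hvT⟩ := hv
    refine le_trans ?_ (h v hvT)
    unfold am
    rw [← Finset.sum_filter]
    refine Finset.sum_le_sum_of_subset_of_nonneg ?_ fun _ _ _ => x2_nonneg
    intro A hA
    rw [Finset.mem_filter, mem_sub, Finset.mem_sdiff, mem_ed] at hA
    rw [mem_sub]
    exact ⟨hA.1.1, Finset.insert_subset (hA.2.1.1 v hvf) hA.1.2⟩
  · push Not at hex
    rw [Finset.sum_eq_zero fun A hA => if_neg (hex A hA)]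
    exact mul_nonneg hs am_nonneg

/-- TASK LocB2. PROOF. For one `A ∈ sub F T` the links `l ∈ D` with `l.1 ∈ ed A \ ed T` are mapped
injectively by `l ↦ l.1` (`Fun D`) into `ed A \ ed T`, which has
`(ed A).card - (ed T).card = q.choose 2 - T.card.choose 2` elements (`card_ed`, `ed_mono`,
`Finset.card_sdiff_of_subset`; `A.card = q`). Interchange the sums. -/
theorem links_mass {q : ℕ} (hF : ∀ A ∈ F, A.card = q) (hD : Fun D) (T : Finset (Fin N)) :
    ∑ l ∈ D, ∑ A ∈ sub F T, (if l.1 ∈ ed A \ ed T then x 2 C K A else 0) ≤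
      ((q.choose 2 : ℝ) - (T.card.choose 2 : ℝ)) * am C K F T := by
  rw [Finset.sum_comm]
  unfold am
  rw [Finset.mul_sum]
  refine Finset.sum_le_sum fun A hA => ?_
  rw [mem_sub] at hA
  rw [← Finset.sum_filter, Finset.sum_const, nsmul_eq_mul]
  refine mul_le_mul_of_nonneg_right ?_ x2_nonneg
  have h1 : (D.filter fun l => l.1 ∈ ed A \ ed T).card ≤ (ed A \ ed T).card := by
    refine Finset.card_le_card_of_injOn (fun l => l.1) ?_ ?_
    · intro l hl
      exact (Finset.mem_filter.1 (Finset.mem_coe.1 hl)).2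
    · intro l hl l' hl' heq
      exact hD l (Finset.mem_filter.1 (Finset.mem_coe.1 hl)).1 l'
        (Finset.mem_filter.1 (Finset.mem_coe.1 hl')).1 heq
  have h2 : (ed A \ ed T).card = q.choose 2 - T.card.choose 2 := by
    rw [Finset.card_sdiff_of_subset (ed_mono hA.2), card_ed, card_ed, hF A hA.1]
  have h3 : T.card.choose 2 ≤ q.choose 2 := by
    rw [← hF A hA.1]
    exact Nat.choose_le_choose 2 (Finset.card_le_card hA.2)
  have h4 : ((q.choose 2 - T.card.choose 2 : ℕ) : ℝ) =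
      (q.choose 2 : ℝ) - (T.card.choose 2 : ℝ) := Nat.cast_sub h3
  rw [← h4, ← h2]
  exact_mod_cast h1

/-- TASK LocB3. PROOF. `kap D p = ∑ l ∈ D, [cr l p]`, so the left hand side is
`∑ l ∈ D, ∑ A ∈ F', ∑ B ∈ F', [cr l (A, B)] x A x B` with `F' = sub F T`. As `T ⊆ A` and `T ⊆ B`,
`ed T ⊆ ed A ∩ ed B`, so `cr l (A, B)` implies
`(l.1 ∈ ed A \ ed T ∧ l.2 ∈ ed B \ ed T) ∨ (l.1 ∈ ed B \ ed T ∧ l.2 ∈ ed A \ ed T)`.
The two cases contribute the same amount (exchange `A` and `B`), namely at most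
`∑ l ∈ D, (∑ A ∈ F', [l.1 ∈ ed A \ ed T] x A) (∑ B ∈ F', [l.2 ∈ ed B \ ed T] x B)`, and the second
factor is `≤ s * am T` by `edge_mass`. Conclude by `links_mass`. -/
theorem kap_sum {q : ℕ} (hF : ∀ A ∈ F, A.card = q) (hD : Fun D) {T : Finset (Fin N)}
    {s : ℝ} (hs : 0 ≤ s) (h : ∀ v, v ∉ T → am C K F (insert v T) ≤ s * am C K F T) :
    ∑ p ∈ sub F T ×ˢ sub F T, (kap D p : ℝ) * (x 2 C K p.1 * x 2 C K p.2) ≤
      2 * ((q.choose 2 : ℝ) - (T.card.choose 2 : ℝ)) * s * am C K F T ^ 2 := by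
  have hk : ∀ p ∈ sub F T ×ˢ sub F T, (kap D p : ℝ) * (x 2 C K p.1 * x 2 C K p.2) =
      ∑ l ∈ D, if cr l p then x 2 C K p.1 * x 2 C K p.2 else 0 := by
    intro p _
    unfold kap
    rw [← Finset.sum_filter, Finset.sum_const, nsmul_eq_mul]
  rw [Finset.sum_congr rfl hk, Finset.sum_comm]
  have hl : ∀ l ∈ D, ∑ p ∈ sub F T ×ˢ sub F T,
      (if cr l p then x 2 C K p.1 * x 2 C K p.2 else 0) ≤
      2 * (s * am C K F T) * ∑ A ∈ sub F T, if l.1 ∈ ed A \ ed T then x 2 C K A else 0 := by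
    intro l _
    obtain ⟨u, hu⟩ : ∃ u : Finset (Fin N) → ℝ, u = fun A =>
      if l.1 ∈ ed A \ ed T then x 2 C K A else 0 := ⟨_, rfl⟩
    obtain ⟨v, hv⟩ : ∃ v : Finset (Fin N) → ℝ, v = fun A =>
      if l.2 ∈ ed A \ ed T then x 2 C K A else 0 := ⟨_, rfl⟩
    have hu0 : ∀ A, 0 ≤ u A := by
      intro A
      rw [hu]
      dsimp only
      split_ifs
      · exact x2_nonneg
      · exact le_rfl
    have hv0 : ∀ A, 0 ≤ v A := by
      intro A
      rw [hv]
      dsimp only
      split_ifs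
      · exact x2_nonneg
      · exact le_rfl
    have hp : ∀ p ∈ sub F T ×ˢ sub F T,
        (if cr l p then x 2 C K p.1 * x 2 C K p.2 else 0) ≤ u p.1 * v p.2 + v p.1 * u p.2 := by
      intro p hp
      rw [Finset.mem_product, mem_sub, mem_sub] at hp
      have hA := ed_mono hp.1.2
      have hB := ed_mono hp.2.2
      split_ifs with hc
      · rcases hc with ⟨h1, h2⟩ | ⟨h1, h2⟩
        · rw [Finset.mem_sdiff] at h1 h2
          have e1 : u p.1 = x 2 C K p.1 := by
            rw [hu]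
            exact if_pos (Finset.mem_sdiff.2 ⟨h1.1, fun hT => h1.2 (hB hT)⟩)
          have e2 : v p.2 = x 2 C K p.2 := by
            rw [hv]
            exact if_pos (Finset.mem_sdiff.2 ⟨h2.1, fun hT => h2.2 (hA hT)⟩)
          rw [e1, e2]
          exact le_add_of_nonneg_right (mul_nonneg (hv0 _) (hu0 _))
        · rw [Finset.mem_sdiff] at h1 h2
          have e1 : u p.2 = x 2 C K p.2 := by
            rw [hu]
            exact if_pos (Finset.mem_sdiff.2 ⟨h1.1, fun hT => h1.2 (hA hT)⟩)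
          have e2 : v p.1 = x 2 C K p.1 := by
            rw [hv]
            exact if_pos (Finset.mem_sdiff.2 ⟨h2.1, fun hT => h2.2 (hB hT)⟩)
          rw [e1, e2]
          exact le_add_of_nonneg_left (mul_nonneg (hu0 _) (hv0 _))
      · exact add_nonneg (mul_nonneg (hu0 _) (hv0 _)) (mul_nonneg (hv0 _) (hu0 _))
    refine (Finset.sum_le_sum hp).trans ?_
    rw [Finset.sum_add_distrib, Finset.sum_product, Finset.sum_product]
    dsimp only
    rw [← Finset.sum_mul_sum, ← Finset.sum_mul_sum]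
    have h5 : ∑ A ∈ sub F T, v A ≤ s * am C K F T := by
      rw [hv]
      exact edge_mass hs h l.2
    have h6 : 0 ≤ ∑ A ∈ sub F T, u A := Finset.sum_nonneg fun A _ => hu0 A
    have h7 := mul_le_mul_of_nonneg_right h5 h6
    have h8 : ∑ A ∈ sub F T, (if l.1 ∈ ed A \ ed T then x 2 C K A else 0) =
        ∑ A ∈ sub F T, u A := by
      rw [hu]
    rw [h8]
    linarith [mul_comm (∑ A ∈ sub F T, u A) (∑ A ∈ sub F T, v A)]
  refine (Finset.sum_le_sum hl).trans ?_
  rw [← Finset.mul_sum]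
  have h9 := links_mass (C := C) (K := K) hF hD T
  have h10 : 0 ≤ 2 * (s * am C K F T) :=
    mul_nonneg zero_le_two (mul_nonneg hs am_nonneg)
  refine (mul_le_mul_of_nonneg_left h9 h10).trans (le_of_eq ?_)
  ring

end C0l1
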