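import Pool.Agent.W_c0l1_h38.Defs

/-! # Families which maximise the potential -/

set_option autoImplicit false

namespace C0l1

open scoped Classical
open C0lo

variable {N : ℕ} {g : ℕ → ℝ} {C K : Finset (Sym2 (Fin N))}
  {D : Finset (Sym2 (Fin N) × Sym2 (Fin N))} {F : Finset (Finset (Fin N))}

theorem exists_Fmax (q : ℕ) (g : ℕ → ℝ) (C K : Finset (Sym2 (Fin N)))
    (D : Finset (Sym2 (Fin N) × Sym2 (Fin N))) :
    ∃ F : Finset (Finset (Fin N)), (∀ A ∈ F, A.card = q) ∧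
      ∀ F' : Finset (Finset (Fin N)), (∀ A ∈ F', A.card = q) →
        Lam g C K D F' ≤ Lam g C K D F := by
  obtain ⟨F, hF, hmax⟩ := Finset.exists_max_image
    ((Finset.univ : Finset (Finset (Finset (Fin N)))).filter (fun F => ∀ A ∈ F, A.card = q))
    (Lam g C K D) ⟨∅, Finset.mem_filter.2 ⟨Finset.mem_univ _, fun A hA => absurd hA
      (Finset.notMem_empty A)⟩⟩
  refine ⟨F, (Finset.mem_filter.1 hF).2, fun F' hF' => ?_⟩
  exact hmax F' (Finset.mem_filter.2 ⟨Finset.mem_univ _, hF'⟩)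

/-- a family of `q`-sets with the largest potential -/
noncomputable def Fmax (q : ℕ) (g : ℕ → ℝ) (C K : Finset (Sym2 (Fin N)))
    (D : Finset (Sym2 (Fin N) × Sym2 (Fin N))) : Finset (Finset (Fin N)) :=
  (exists_Fmax q g C K D).choose

theorem Fmax_card {q : ℕ} {A : Finset (Fin N)} (hA : A ∈ Fmax q g C K D) : A.card = q :=
  (exists_Fmax q g C K D).choose_spec.1 A hA

theorem Fmax_max {q : ℕ} (hF : ∀ A ∈ F, A.card = q) :
    Lam g C K D F ≤ Lam g C K D (Fmax q g C K D) :=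
  (exists_Fmax q g C K D).choose_spec.2 F hF

/-- If `F` is maximal among its subfamilies, then a set of pairs each of which has a component in
the subfamily `G` weighs at most as much as `G`. -/
theorem stable (hg : ∀ j, 0 ≤ g j)
    (hmax : ∀ F' ⊆ F, Lam g C K D F' ≤ Lam g C K D F)
    {G : Finset (Finset (Fin N))} (hG : G ⊆ F)
    {S : Finset (Finset (Fin N) × Finset (Fin N))} (hS : S ⊆ F ×ˢ F)
    (hSG : ∀ p ∈ S, p.1 ∈ G ∨ p.2 ∈ G) :
    ∑ p ∈ S, y g C K D p ≤ ∑ A ∈ G, x 2 C K A := by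
  have h1 := hmax (F \ G) Finset.sdiff_subset
  have h2 : ∑ A ∈ F \ G, x 2 C K A + ∑ A ∈ G, x 2 C K A = ∑ A ∈ F, x 2 C K A :=
    Finset.sum_sdiff hG
  have h3 : ∑ p ∈ (F \ G) ×ˢ (F \ G), y g C K D p + ∑ p ∈ S, y g C K D p ≤
      ∑ p ∈ F ×ˢ F, y g C K D p := by
    have hd : Disjoint ((F \ G) ×ˢ (F \ G)) S := by
      rw [Finset.disjoint_left]
      intro p hp hp'
      rw [Finset.mem_product, Finset.mem_sdiff, Finset.mem_sdiff] at hp
      rcases hSG p hp' with h | h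
      · exact hp.1.2 h
      · exact hp.2.2 h
    rw [← Finset.sum_union hd]
    refine Finset.sum_le_sum_of_subset_of_nonneg ?_ fun p _ _ => y_nonneg hg
    refine Finset.union_subset ?_ hS
    exact Finset.product_subset_product Finset.sdiff_subset Finset.sdiff_subset
  unfold Lam at h1
  linarith

/-- the subfamily inequality -/
theorem stable_sub (hg : ∀ j, 0 ≤ g j)
    (hmax : ∀ F' ⊆ F, Lam g C K D F' ≤ Lam g C K D F)
    {G : Finset (Finset (Fin N))} (hG : G ⊆ F) :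
    ∑ p ∈ G ×ˢ G, y g C K D p ≤ ∑ A ∈ G, x 2 C K A :=
  stable hg hmax hG (Finset.product_subset_product hG hG)
    fun _ hp => Or.inl (Finset.mem_product.1 hp).1

/-- the bound for the pairs which contain two edges without being crossed -/
theorem zi_le (hg : ∀ j, 0 ≤ g j)
    (hmax : ∀ F' ⊆ F, Lam g C K D F' ≤ Lam g C K D F) (e f : Sym2 (Fin N)) :
    zi g C K D F e f ≤ 2 * t2 2 C K F e f := by
  obtain ⟨G, hG⟩ : ∃ G : Finset (Finset (Fin N)),
      G = F.filter (fun A => e ∈ ed A ∧ f ∈ ed A) := ⟨_, rfl⟩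
  have hGF : G ⊆ F := by
    rw [hG]
    exact Finset.filter_subset _ _
  have ht : t2 2 C K F e f = ∑ A ∈ G, x 2 C K A := by
    unfold t2
    rw [hG, Finset.sum_filter]
  have h1 : ∑ p ∈ G ×ˢ F, y g C K D p ≤ ∑ A ∈ G, x 2 C K A :=
    stable hg hmax hGF (Finset.product_subset_product hGF le_rfl)
      fun _ hp => Or.inl (Finset.mem_product.1 hp).1
  have h2 : ∑ p ∈ F ×ˢ G, y g C K D p ≤ ∑ A ∈ G, x 2 C K A :=
    stable hg hmax hGF (Finset.product_subset_product le_rfl hGF)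
      fun _ hp => Or.inr (Finset.mem_product.1 hp).2
  have h3 : zi g C K D F e f ≤ ∑ p ∈ G ×ˢ F, y g C K D p + ∑ p ∈ F ×ˢ G, y g C K D p := by
    unfold zi
    rw [← Finset.sum_filter]
    refine le_trans (Finset.sum_le_sum_of_subset_of_nonneg (t := G ×ˢ F ∪ F ×ˢ G) ?_
      fun p _ _ => y_nonneg hg) ?_
    · intro p hp
      rw [Finset.mem_filter, Finset.mem_product] at hp
      obtain ⟨⟨hp1, hp2⟩, ⟨he, hf⟩, hc⟩ := hp
      rw [Finset.mem_union, Finset.mem_product, Finset.mem_product, hG, Finset.mem_filter,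
        Finset.mem_filter]
      rcases not_cr he hf hc with h | h
      · exact Or.inl ⟨⟨hp1, h⟩, hp2⟩
      · exact Or.inr ⟨hp1, ⟨hp2, h⟩⟩
    · rw [← Finset.sum_union_inter]
      have : 0 ≤ ∑ p ∈ (G ×ˢ F) ∩ (F ×ˢ G), y g C K D p :=
        Finset.sum_nonneg fun p _ => y_nonneg hg
      linarith
  rw [ht]
  linarith

end C0l1
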