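import Pool.Agent.W_c0l1_h38.LocD
import Pool.Agent.W_c0l1_h38.Stab

/-! # Upper bound for a local mass by the subfamily inequality -/

set_option autoImplicit false

namespace C0l1

open scoped Classical
open C0lo

variable {N : ℕ} {g : ℕ → ℝ} {C K : Finset (Sym2 (Fin N))}
  {D : Finset (Sym2 (Fin N) × Sym2 (Fin N))} {F : Finset (Finset (Fin N))}

private theorem locC_w_mul (X Y : Finset (Sym2 (Fin N))) :
    w 2 C K X * w 2 C K Y ≤ w 2 C K (X ∪ Y) := by
  by_cases hX : Disjoint X K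
  · by_cases hY : Disjoint Y K
    · have hXY : Disjoint (X ∪ Y) K := Finset.disjoint_union_left.2 ⟨hX, hY⟩
      unfold w
      rw [if_pos hX, if_pos hY, if_pos hXY, ← pow_add]
      refine pow_le_pow_of_le_one (by norm_num) (by norm_num) ?_
      rw [Finset.union_sdiff_distrib]
      exact Finset.card_union_le _ _
    · have h1 : w 2 C K Y = 0 := by
        unfold w
        rw [if_neg hY]
      rw [h1, mul_zero]
      exact w_nonneg (by norm_num)
  · have h1 : w 2 C K X = 0 := by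
      unfold w
      rw [if_neg hX]
    rw [h1, zero_mul]
    exact w_nonneg (by norm_num)

/-- TASK LocC1. PROOF. If one of `x A`, `x B` is `0` the left hand side is `0`. Otherwise `ed A` and
`ed B` are disjoint from `K`, so is the union, and `((ed A ∪ ed B) \ C).card ≤ (ed A \ C).card +
(ed B \ C).card`; see `C0lo.w_mul_le` (file `W_c0lo_h38/Stab.lean`), which is exactly this with
`al = 2`. Multiply by `g`, `(3/4)^κ ≤ (3/4)^kap`. (`A ≠ B` because `(A ∩ B).card < q = A.card`.) -/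
theorem y_ge {q : ℕ} (hg : ∀ j, 0 ≤ g j) {A B : Finset (Fin N)} (hA : A.card = q)
    (hAB : (A ∩ B).card < q) {gm : ℝ} (hgm : gm ≤ g (A ∩ B).card)
    {κ : ℕ} (hk : kap D (A, B) ≤ κ) :
    gm * (3 / 4) ^ κ * (x 2 C K A * x 2 C K B) ≤ y g C K D (A, B) := by
  have hne : A ≠ B := by
    rintro rfl
    rw [Finset.inter_self, hA] at hAB
    exact lt_irrefl _ hAB
  have h1 : y g C K D (A, B) = g (A ∩ B).card * w 2 C K (ed A ∪ ed B) *
      (3 / 4) ^ kap D (A, B) := by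
    unfold y C0lo.y
    rw [if_neg hne]
  rw [h1]
  have h2 : x 2 C K A * x 2 C K B ≤ w 2 C K (ed A ∪ ed B) := locC_w_mul _ _
  have h3 : ((3 : ℝ) / 4) ^ κ ≤ (3 / 4) ^ kap D (A, B) :=
    pow_le_pow_of_le_one (by norm_num) (by norm_num) hk
  have h4 : 0 ≤ x 2 C K A * x 2 C K B := mul_nonneg x2_nonneg x2_nonneg
  have h5 : 0 ≤ ((3 : ℝ) / 4) ^ κ := by positivity
  calc gm * (3 / 4) ^ κ * (x 2 C K A * x 2 C K B)
      ≤ g (A ∩ B).card * (3 / 4) ^ κ * (x 2 C K A * x 2 C K B) :=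
        mul_le_mul_of_nonneg_right (mul_le_mul_of_nonneg_right hgm h5) h4
    _ = g (A ∩ B).card * ((3 / 4) ^ κ * (x 2 C K A * x 2 C K B)) := by ring
    _ ≤ g (A ∩ B).card * ((3 / 4) ^ kap D (A, B) * w 2 C K (ed A ∪ ed B)) :=
        mul_le_mul_of_nonneg_left (mul_le_mul h3 h2 h4 (by positivity)) (hg _)
    _ = g (A ∩ B).card * w 2 C K (ed A ∪ ed B) * (3 / 4) ^ kap D (A, B) := by ring

/-- TASK LocC2. PROOF. Write `F' = sub F T`, `a = am C K F T = ∑ A ∈ F', x A`, `b = T.card`; the sums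
over `p ∈ F' ×ˢ F'` of `X p = x p.1 * x p.2` is `a ^ 2`. Pairs with `b + m ≤ (p.1 ∩ p.2).card`
have `X`-mass at most `a ^ 2 / 2` (`h1`), pairs with `κ + 1 ≤ kap D p` have mass at most
`∑ kap X / (κ + 1) ≤ k1 a ^ 2 / (κ + 1) ≤ a ^ 2 / 4` (`h2`, `hk`). So the other pairs have mass at
least `a ^ 2 / 4`, and for them `b ≤ (p.1 ∩ p.2).card < b + m ≤ q` and `kap ≤ κ`, so `y_ge` gives
`gm (3/4)^κ X p ≤ y p`. Hence `gm (3/4)^κ a ^ 2 / 4 ≤ ∑ p ∈ F' ×ˢ F', y p ≤ a`
(`stable_sub` with `G = F'`). If `a = 0` the claim is clear, otherwise divide by `a`. -/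
theorem am_le {q : ℕ} (hg : ∀ j, 0 ≤ g j) (hF : ∀ A ∈ F, A.card = q)
    (hmax : ∀ F' ⊆ F, Lam g C K D F' ≤ Lam g C K D F)
    {T : Finset (Fin N)} {m κ : ℕ} (hm : T.card + m ≤ q)
    (h1 : ∑ p ∈ sub F T ×ˢ sub F T,
      (if T.card + m ≤ (p.1 ∩ p.2).card then x 2 C K p.1 * x 2 C K p.2 else 0) ≤
      am C K F T ^ 2 / 2)
    {k1 : ℝ} (h2 : ∑ p ∈ sub F T ×ˢ sub F T, (kap D p : ℝ) * (x 2 C K p.1 * x 2 C K p.2) ≤
      k1 * am C K F T ^ 2) (hk : 4 * k1 ≤ κ + 1)
    {gm : ℝ} (hgm0 : 0 ≤ gm) (hgm : ∀ j, T.card ≤ j → j < T.card + m → gm ≤ g j) :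
    am C K F T * (gm * (3 / 4) ^ κ) ≤ 4 := by
  have ha0 : 0 ≤ am C K F T := am_nonneg
  set a := am C K F T with ha
  have hκ : (0 : ℝ) < κ + 1 := by positivity
  set c := gm * (3 / 4 : ℝ) ^ κ with hc
  have hc0 : 0 ≤ c := mul_nonneg hgm0 (by positivity)
  -- total mass
  have htot : ∑ p ∈ sub F T ×ˢ sub F T, x 2 C K p.1 * x 2 C K p.2 = a ^ 2 := by
    rw [sq, ha]
    unfold am
    rw [Finset.sum_mul_sum, Finset.sum_product]
  -- pointwise bound
  have hpt : ∀ p ∈ sub F T ×ˢ sub F T, c * (x 2 C K p.1 * x 2 C K p.2) ≤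
      c * (if T.card + m ≤ (p.1 ∩ p.2).card then x 2 C K p.1 * x 2 C K p.2 else 0) +
      c / (κ + 1) * ((kap D p : ℝ) * (x 2 C K p.1 * x 2 C K p.2)) + y g C K D p := by
    intro p hp
    obtain ⟨A, B⟩ := p
    rw [Finset.mem_product, mem_sub, mem_sub] at hp
    obtain ⟨⟨hAF, hTA⟩, hBF, hTB⟩ := hp
    dsimp only at hAF hTA hBF hTB ⊢
    have hX : 0 ≤ x 2 C K A * x 2 C K B := mul_nonneg x2_nonneg x2_nonneg
    have hy : 0 ≤ y g C K D (A, B) := y_nonneg hg
    have hk0 : 0 ≤ c / (κ + 1) * ((kap D (A, B) : ℝ) * (x 2 C K A * x 2 C K B)) := by positivity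
    by_cases hi : T.card + m ≤ (A ∩ B).card
    · rw [if_pos hi]
      linarith
    · rw [if_neg hi, mul_zero, zero_add]
      by_cases hj : κ + 1 ≤ kap D (A, B)
      · have h3 : ((κ : ℝ) + 1) ≤ kap D (A, B) := by exact_mod_cast hj
        have h4 : c * (x 2 C K A * x 2 C K B) ≤
            c / (κ + 1) * ((kap D (A, B) : ℝ) * (x 2 C K A * x 2 C K B)) := by
          have h5 : c / (κ + 1) * ((κ + 1) * (x 2 C K A * x 2 C K B)) =
              c * (x 2 C K A * x 2 C K B) := by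
            field_simp
          rw [← h5]
          exact mul_le_mul_of_nonneg_left (mul_le_mul_of_nonneg_right h3 hX) (by positivity)
        linarith
      · have h3 : T.card ≤ (A ∩ B).card :=
          Finset.card_le_card (Finset.subset_inter hTA hTB)
        have h4 := y_ge (C := C) (K := K) (D := D) (B := B) hg (hF A hAF) (by omega)
          (hgm _ h3 (by omega)) (κ := κ) (by omega)
        linarith
  have hsum := Finset.sum_le_sum hpt
  rw [Finset.sum_add_distrib, Finset.sum_add_distrib, ← Finset.mul_sum, ← Finset.mul_sum,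
    ← Finset.mul_sum, htot] at hsum
  have hst : ∑ p ∈ sub F T ×ˢ sub F T, y g C K D p ≤ a := stable_sub hg hmax sub_subset
  have h3 : c * ∑ p ∈ sub F T ×ˢ sub F T,
      (if T.card + m ≤ (p.1 ∩ p.2).card then x 2 C K p.1 * x 2 C K p.2 else 0) ≤
      c * (a ^ 2 / 2) := mul_le_mul_of_nonneg_left h1 hc0
  have h4 : c / (κ + 1) * ∑ p ∈ sub F T ×ˢ sub F T,
      (kap D p : ℝ) * (x 2 C K p.1 * x 2 C K p.2) ≤ c * (a ^ 2 / 4) := by
    refine (mul_le_mul_of_nonneg_left h2 (by positivity)).trans ?_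
    have h5 : k1 * a ^ 2 ≤ (κ + 1) / 4 * a ^ 2 :=
      mul_le_mul_of_nonneg_right (by linarith) (by positivity)
    refine (mul_le_mul_of_nonneg_left h5 (by positivity)).trans (le_of_eq ?_)
    field_simp
  have h6 : c * a ^ 2 / 4 ≤ a := by linarith
  rcases eq_or_lt_of_le ha0 with h0 | h0
  · rw [← h0, zero_mul]
    norm_num
  · have h7 : a * (a * c) ≤ a * 4 := by nlinarith
    exact le_of_mul_le_mul_left h7 h0

end C0l1
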