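import Pool.Agent.W_c0l1_h38.Par

/-! # Thresholds: elementary bounds -/

set_option autoImplicit false

namespace C0l1

open scoped Classical
open C0lo

/-- TASK NumA1. PROOF. `j (q - j) ≤ q ^ 2 / 4`. -/
theorem RR_ge {q j : ℕ} (h1 : 1 ≤ j) (h2 : j < q) : 2 ^ 18 ≤ RR q j := by
  have h3 : (0 : ℝ) < j := by exact_mod_cast h1
  have h4 : (j : ℝ) < q := by exact_mod_cast h2
  have h5 : (0 : ℝ) < (q : ℝ) - j := by linarith
  unfold RR
  rw [le_div_iff₀ (mul_pos h3 h5)]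
  nlinarith [sq_nonneg ((q : ℝ) - 2 * j)]

/-- TASK NumA2. PROOF. `j (q - j) ≥ q - 1 ≥ q / 2` for `1 ≤ j ≤ q - 1` (`q ≥ 2`). -/
theorem RR_le {q j : ℕ} (h1 : 1 ≤ j) (h2 : j < q) : RR q j ≤ 2 ^ 17 * q := by
  have h3 : (1 : ℝ) ≤ j := by exact_mod_cast h1
  have h4 : (j : ℝ) + 1 ≤ q := by exact_mod_cast h2
  have h5 : (0 : ℝ) < (q : ℝ) - j := by linarith
  have h6 : (0 : ℝ) < j := by linarith
  have h7 : (q : ℝ) ≤ 2 * ((j : ℝ) * ((q : ℝ) - j)) := by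
    nlinarith [mul_nonneg (by linarith : (0 : ℝ) ≤ (j : ℝ) - 1)
      (by linarith : (0 : ℝ) ≤ (q : ℝ) - j - 1)]
  have h8 : (0 : ℝ) ≤ q := by linarith
  unfold RR
  rw [div_le_iff₀ (mul_pos h6 h5)]
  nlinarith [mul_le_mul_of_nonneg_left h7 h8]

theorem NumA_prod_ge {q b c : ℕ} (hb : 1 ≤ b) (hc : c ≤ q) (x : ℝ) (h0 : 0 ≤ x)
    (hx : x ≤ 2 ^ 18) : x ^ (c - b) ≤ ∏ j ∈ Finset.Ico b c, RR q j := by
  have h1 : ∏ j ∈ Finset.Ico b c, x ≤ ∏ j ∈ Finset.Ico b c, RR q j := by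
    refine Finset.prod_le_prod (fun _ _ => h0) fun j hj => ?_
    rw [Finset.mem_Ico] at hj
    exact hx.trans (RR_ge (by omega) (by omega))
  rwa [Finset.prod_const, Nat.card_Ico] at h1

/-- TASK NumA3. PROOF. Put `i = q - b ≥ 1`, `m = i / 8 + 1`, so `8 m ≥ i + 1`. Every factor is
`≥ 2 ^ 18 ≥ 2 ^ 16` (`RR_ge`; the indices are in `[b, b + m)` and `b + m ≤ q`), so the product is
`≥ (2 ^ 16) ^ m = 2 ^ (16 m) ≥ 2 ^ (2 i + 2)`, and `i.choose m ≤ 2 ^ i` (`Nat.choose_le_two_pow`).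
-/
theorem choose_le_prod {q b : ℕ} (hb : 3 ≤ b) (h : b < q) :
    ((q - b).choose ((q - b) / 8 + 1) : ℝ) ≤
      (∏ j ∈ Finset.Ico b (b + ((q - b) / 8 + 1)), RR q j) / 2 := by
  have h1 := NumA_prod_ge (q := q) (b := b) (c := b + ((q - b) / 8 + 1)) (by omega) (by omega)
    (2 ^ 16) (by norm_num) (by norm_num)
  have h2 : b + ((q - b) / 8 + 1) - b = (q - b) / 8 + 1 := by omega
  rw [h2, ← pow_mul] at h1
  have h3 : ((q - b).choose ((q - b) / 8 + 1) : ℝ) ≤ 2 ^ (q - b) := by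
    exact_mod_cast Nat.choose_le_two_pow (q - b) ((q - b) / 8 + 1)
  have h4 : (2 : ℝ) ^ (q - b + 1) ≤ 2 ^ (16 * ((q - b) / 8 + 1)) :=
    pow_le_pow_right₀ (by norm_num) (by omega)
  rw [pow_succ] at h4
  linarith

/-- TASK NumA4. PROOF. `PP` is increasing in `b` (`PP_mul`, all factors `≥ 1` by `RR_ge`). -/
theorem PP_mono {q b c : ℕ} (h3 : 3 ≤ b) (hbc : b ≤ c) (hc : c ≤ q) : PP q b ≤ PP q c := by
  obtain ⟨m, rfl⟩ := Nat.exists_eq_add_of_le hbc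
  have h1 := NumA_prod_ge (q := q) (b := b) (c := b + m) (by omega) hc 1 (by norm_num)
    (by norm_num)
  rw [one_pow] at h1
  rw [PP_mul h3 hc]
  exact le_mul_of_one_le_right (PP_pos (by omega)).le h1

/-- TASK NumA5. PROOF. There are `b - 3` factors, each `≤ 2 ^ 17 q` (`RR_le`). -/
theorem PP_le {q b : ℕ} (hb : b ≤ q) : PP q b ≤ (2 ^ 17 * (q : ℝ)) ^ (b - 3) := by
  have h1 : PP q b ≤ ∏ j ∈ Finset.Ico 3 b, (2 ^ 17 * (q : ℝ)) := by
    unfold PP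
    refine Finset.prod_le_prod (fun j hj => ?_) fun j hj => ?_
    · rw [Finset.mem_Ico] at hj
      exact (RR_pos (by omega) (by omega)).le
    · rw [Finset.mem_Ico] at hj
      exact RR_le (by omega) (by omega)
  rwa [Finset.prod_const, Nat.card_Ico] at h1

/-- TASK NumA6. PROOF. Enlarge the product to `j ∈ Ico 1 q` (all factors `≥ 1`). There
`∏ j ∈ Ico 1 q, j = (q-1)!` and (reflection `j ↦ q - j`, `Finset.prod_Ico_reflect`)
`∏ j ∈ Ico 1 q, (q - j) = (q-1)!`, so the product is `2 ^ (16 (q-1)) (q ^ (q-1) / (q-1)!) ^ 2`.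
`q ^ (q-1) / (q-1)! ≤ exp q` (`Real.pow_div_factorial_le_exp`), and `exp 1 ^ 2 ≤ 8`
(`Real.exp_one_lt_d9`). So it is `≤ 2 ^ (16 q) * 8 ^ q = 2 ^ (19 q)`. -/
theorem PP_q_le {q : ℕ} (hq : 3 ≤ q) : PP q q ≤ 2 ^ (19 * q) := by
  have h1 : PP q q ≤ ∏ j ∈ Finset.Ico 1 q, RR q j := by
    have h2 : (∏ j ∈ Finset.Ico 1 3, RR q j) * PP q q = ∏ j ∈ Finset.Ico 1 q, RR q j := by
      unfold PP
      exact Finset.prod_Ico_consecutive _ (by omega) hq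
    have h3 := NumA_prod_ge (q := q) (b := 1) (c := 3) (by omega) hq 1 (by norm_num)
      (by norm_num)
    rw [one_pow] at h3
    rw [← h2]
    exact le_mul_of_one_le_left (PP_pos le_rfl).le h3
  obtain ⟨n, rfl⟩ : ∃ n, q = n + 1 := ⟨q - 1, by omega⟩
  have h4 : ∏ j ∈ Finset.Ico 1 (n + 1), ((j : ℕ) : ℝ) = (n.factorial : ℝ) := by
    rw [← Nat.cast_prod, Finset.prod_Ico_id_eq_factorial n]
  have h5 : ∏ j ∈ Finset.Ico 1 (n + 1), (((n + 1 : ℕ) : ℝ) - (j : ℝ)) = (n.factorial : ℝ) := by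
    have h6 := Finset.prod_Ico_reflect (fun j => (j : ℝ)) 1 (m := n + 1) (n := n + 1) (by omega)
    rw [show n + 1 + 1 - (n + 1) = 1 by omega, show n + 1 + 1 - 1 = n + 1 by omega, h4] at h6
    rw [← h6]
    refine Finset.prod_congr rfl fun j hj => ?_
    rw [Finset.mem_Ico] at hj
    rw [Nat.cast_sub (by omega)]
  have h7 : ∏ j ∈ Finset.Ico 1 (n + 1), RR (n + 1) j =
      (2 ^ 16) ^ n * (((n + 1 : ℕ) : ℝ) ^ n / (n.factorial : ℝ)) ^ 2 := by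
    unfold RR
    rw [Finset.prod_div_distrib, Finset.prod_mul_distrib, Finset.prod_mul_distrib, h4, h5,
      Finset.prod_const, Finset.prod_const, Nat.card_Ico, Nat.add_sub_cancel, div_pow,
      pow_right_comm (((n + 1 : ℕ) : ℝ)) 2 n, mul_div_assoc, sq (n.factorial : ℝ)]
  have h8 : ((n + 1 : ℕ) : ℝ) ^ n / (n.factorial : ℝ) ≤ Real.exp ((n + 1 : ℕ) : ℝ) :=
    Real.pow_div_factorial_le_exp _ (by positivity) n
  have h9 : Real.exp ((n + 1 : ℕ) : ℝ) ^ 2 ≤ 8 ^ (n + 1) := by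
    have h10 : Real.exp ((n + 1 : ℕ) : ℝ) = Real.exp 1 ^ (n + 1) := by
      rw [← Real.exp_nat_mul, mul_one]
    have h11 : Real.exp 1 ^ 2 ≤ 8 := by
      have := Real.exp_one_lt_d9
      have h12 := Real.exp_pos 1
      nlinarith
    rw [h10, ← pow_mul, mul_comm (n + 1) 2, pow_mul]
    exact pow_le_pow_left₀ (by positivity) h11 _
  have h13 : (((n + 1 : ℕ) : ℝ) ^ n / (n.factorial : ℝ)) ^ 2 ≤ 8 ^ (n + 1) :=
    (pow_le_pow_left₀ (by positivity) h8 2).trans h9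
  have h14 : ((2 : ℝ) ^ 16) ^ n ≤ (2 ^ 16) ^ (n + 1) :=
    pow_le_pow_right₀ (by norm_num) (by omega)
  have h15 : (2 : ℝ) ^ (19 * (n + 1)) = (2 ^ 16) ^ (n + 1) * 8 ^ (n + 1) := by
    rw [← mul_pow, pow_mul]
    norm_num
  rw [h15]
  refine h1.trans ?_
  rw [h7]
  exact mul_le_mul h14 h13 (by positivity) (by positivity)

end C0l1
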