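import Pool.Agent.W_c0l1_h38.LocA
import Pool.Agent.W_c0l1_h38.LocB
import Pool.Agent.W_c0l1_h38.LocC
import Pool.Agent.W_c0l1_h38.NumA

/-! # The bound for the local masses of a maximal family -/

set_option autoImplicit false

namespace C0l1

open scoped Classical
open C0lo

variable {N q : ℕ} {C K : Finset (Sym2 (Fin N))}
  {D : Finset (Sym2 (Fin N) × Sym2 (Fin N))} {F : Finset (Finset (Fin N))}

theorem exists_T (hq : 3 ≤ q) (C K : Finset (Sym2 (Fin N))) (F : Finset (Finset (Fin N)))
    {S : Finset (Fin N)} (hS : S.card = 3) :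
    ∃ T : Finset (Fin N), S ⊆ T ∧ T.card ≤ q ∧ ∀ T' : Finset (Fin N), S ⊆ T' → T'.card ≤ q →
      am C K F T' * PP q T'.card ≤ am C K F T * PP q T.card := by
  obtain ⟨T, hT, hmax⟩ := Finset.exists_max_image
    ((Finset.univ : Finset (Finset (Fin N))).filter (fun T => S ⊆ T ∧ T.card ≤ q))
    (fun T => am C K F T * PP q T.card)
    ⟨S, Finset.mem_filter.2 ⟨Finset.mem_univ _, Finset.Subset.refl S, by omega⟩⟩
  rw [Finset.mem_filter] at hT
  exact ⟨T, hT.2.1, hT.2.2, fun T' h1 h2 =>
    hmax T' (Finset.mem_filter.2 ⟨Finset.mem_univ _, h1, h2⟩)⟩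

theorem am_le_one (hF : ∀ A ∈ F, A.card = q) {T : Finset (Fin N)} (hT : T.card = q) :
    am C K F T ≤ 1 := by
  unfold am
  have h1 : sub F T ⊆ {T} := by
    intro A hA
    rw [mem_sub] at hA
    rw [Finset.mem_singleton]
    exact (Finset.eq_of_subset_of_card_le hA.2 (by rw [hF A hA.1, hT])).symm
  refine (Finset.sum_le_sum_of_subset_of_nonneg h1 fun _ _ _ => x2_nonneg).trans ?_
  rw [Finset.sum_singleton]
  exact w_le_one (by norm_num)

/-- the bound for the local masses -/
theorem loc (h : Cond N q) (hD : Fun D) (hF : ∀ A ∈ F, A.card = q)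
    (hmax : ∀ F' ⊆ F, Lam (gg N q) C K D F' ≤ Lam (gg N q) C K D F)
    {S : Finset (Fin N)} (hS : S.card = 3) : am C K F S ≤ th N q := by
  have hth := th_pos h
  have hq := h.hq
  obtain ⟨T, hST, hTq, hT⟩ := exists_T hq C K F hS
  have hb : 3 ≤ T.card := hS ▸ Finset.card_le_card hST
  have hPP := PP_pos (q := q) (b := T.card) hTq
  have h0 : am C K F S ≤ am C K F T * PP q T.card := by
    have h1 := hT S (Finset.Subset.refl S) (by omega)
    have h2 : PP q S.card = 1 := by
      unfold PP
      rw [hS, Finset.Ico_self, Finset.prod_empty]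
    rwa [h2, mul_one] at h1
  refine h0.trans ?_
  rcases hTq.eq_or_lt with hbq | hbq
  · have h1 := am_le_one (C := C) (K := K) hF hbq
    have h2 := h.h2
    rw [hbq] at hPP ⊢
    nlinarith
  · obtain ⟨b, hbdef⟩ : ∃ b, b = T.card := ⟨_, rfl⟩
    obtain ⟨m, hm⟩ : ∃ m, m = (q - b) / 8 + 1 := ⟨_, rfl⟩
    rw [← hbdef] at hb hPP hbq h0 ⊢
    have hbm : b + m ≤ q := by omega
    have hstep : ∀ (n : ℕ), b + n ≤ q → ∀ T' : Finset (Fin N), T ⊆ T' → T'.card = b + n →
        am C K F T' * ∏ j ∈ Finset.Ico b (b + n), RR q j ≤ am C K F T := by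
      intro n hn T' hTT' hc
      have h1 := hT T' (hST.trans hTT') (by omega)
      rw [hc, ← hbdef, PP_mul hb hn] at h1
      have h2 : am C K F T' * (∏ j ∈ Finset.Ico b (b + n), RR q j) * PP q b ≤
          am C K F T * PP q b := by
        calc _ = am C K F T' * (PP q b * ∏ j ∈ Finset.Ico b (b + n), RR q j) := by ring
          _ ≤ _ := h1
      exact le_of_mul_le_mul_right h2 hPP
    have hr0 : 0 < ∏ j ∈ Finset.Ico b (b + m), RR q j := by
      refine Finset.prod_pos fun j hj => ?_
      rw [Finset.mem_Ico] at hj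
      exact RR_pos (by omega) (by omega)
    have ha0 : 0 ≤ am C K F T := am_nonneg
    have h1 := big_inter (C := C) (K := K) hF (T := T) (m := m) hr0 (by
      intro T' hTT' hc
      exact hstep m hbm T' hTT' (by rw [hc, hbdef]))
    have h1' : ∑ p ∈ sub F T ×ˢ sub F T,
        (if T.card + m ≤ (p.1 ∩ p.2).card then x 2 C K p.1 * x 2 C K p.2 else 0) ≤
        am C K F T ^ 2 / 2 := by
      refine h1.trans ?_
      have h2 := choose_le_prod hb hbq
      rw [← hm] at h2
      rw [← hbdef]
      have h3 : ((q - b).choose m : ℝ) / (∏ j ∈ Finset.Ico b (b + m), RR q j) ≤ 1 / 2 := by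
        rw [div_le_iff₀ hr0]
        linarith
      have h4 : 0 ≤ am C K F T ^ 2 := by positivity
      nlinarith
    have hR := RR_pos (q := q) (j := b) (by omega) hbq
    have h2 := kap_sum (C := C) (K := K) hF hD (T := T) (s := 1 / RR q b) (by positivity) (by
      intro v hv
      have h3 := hstep 1 (by omega) (insert v T) (Finset.subset_insert _ _)
        (by rw [Finset.card_insert_of_notMem hv, hbdef])
      rw [Nat.Ico_succ_singleton, Finset.prod_singleton] at h3
      rw [one_div, inv_mul_eq_div, le_div_iff₀ hR]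
      exact h3)
    have hk : 4 * (2 * ((q.choose 2 : ℝ) - (T.card.choose 2 : ℝ)) * (1 / RR q b)) ≤
        (kk q b : ℝ) + 1 := by
      have h3 := Nat.lt_floor_add_one (8 * ((q.choose 2 : ℝ) - (b.choose 2 : ℝ)) / RR q b)
      unfold kk
      rw [← hbdef]
      refine le_trans (le_of_eq ?_) h3.le
      ring
    have h5 := am_le (gg_nonneg N q) hF hmax (T := T) (m := m) (κ := kk q b) (by omega) h1' h2 hk
      (gm := 4 * (4 / 3) ^ kk q b * PP q b / th N q) (by positivity) (by
        intro j hj1 hj2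
        rw [← hbdef] at hj1 hj2
        rw [div_le_iff₀ hth]
        have := h.h1 b hb hbq j hj1 (by omega)
        linarith)
    have h6 : ((4 : ℝ) / 3) ^ kk q b * (3 / 4) ^ kk q b = 1 := by
      rw [← mul_pow]
      norm_num
    have h7 : am C K F T * (4 * (4 / 3) ^ kk q b * PP q b / th N q * (3 / 4) ^ kk q b) =
        4 * (am C K F T * PP q b / th N q) := by
      calc am C K F T * (4 * (4 / 3) ^ kk q b * PP q b / th N q * (3 / 4) ^ kk q b)
          = 4 * (am C K F T * PP q b / th N q) * ((4 / 3) ^ kk q b * (3 / 4) ^ kk q b) := by ring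
        _ = _ := by rw [h6, mul_one]
    rw [h7] at h5
    have h8 : am C K F T * PP q b / th N q ≤ 1 := by linarith
    rwa [div_le_one hth] at h8

end C0l1
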