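import Pool.Agent.W_c0l1_h38.Defs

/-! # One round of play -/

set_option autoImplicit false

namespace C0l1

open scoped Classical
open C0lo

variable {N : ℕ} {g : ℕ → ℝ} {C K : Finset (Sym2 (Fin N))}
  {D : Finset (Sym2 (Fin N) × Sym2 (Fin N))} {F : Finset (Finset (Fin N))}

/-- pointwise inequality for a clique in a round of Maker -/
theorem ptM_x {v : ℝ} (hv : 0 ≤ v) (e1 e2 f1 f2 : Prop)
    [Decidable e1] [Decidable e2] [Decidable f1] [Decidable f2] :
    v + (if e1 then v else 0) + (if e2 then (if e1 then 2 * v else v) else 0)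
      - (if f1 then v else 0) - (if f2 then (if e1 then 2 * v else v) else 0)
      - 2 * ((if e1 ∧ f1 then v else 0) + (if e1 ∧ f2 then v else 0) +
        (if e2 ∧ f1 then v else 0) + (if e2 ∧ f2 then v else 0))
    ≤ if f2 then 0 else if f1 then 0 else
        (if e2 then 2 * (if e1 then 2 * v else v) else (if e1 then 2 * v else v)) := by
  by_cases a1 : e1 <;> by_cases a2 : e2 <;> by_cases b1 : f1 <;> by_cases b2 : f2 <;>
    simp only [a1, a2, b1, b2, if_true, if_false, and_true, and_false,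
      and_self] <;> linarith

/-- pointwise inequality for a pair in a round of Maker -/
theorem ptM_y {v : ℝ} (hv : 0 ≤ v) (e1 e2 f1 f2 c1 c2 cc : Prop)
    [Decidable e1] [Decidable e2] [Decidable f1] [Decidable f2] [Decidable c1] [Decidable c2]
    [Decidable cc] (h1 : c1 → e1) (h2 : c2 → e2) (h3 : cc → f1 ∧ f2) :
    (if f2 then 0 else if f1 then 0 else
      ((v + (if e1 then v else 0) - (if c1 then v else 0) / 2) +
        (if e2 then (v + (if e1 then v else 0) - (if c1 then v else 0) / 2) else 0) -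
        (if c2 then (v + (if e1 then v else 0) - (if c1 then v else 0) / 2) else 0) / 2))
    ≤ v + (if e1 then v else 0) - (if c1 then v else 0) / 2
      + (if e2 then (v + (if e1 then v else 0) - (if c1 then v else 0) / 2) else 0)
      - (if c2 then (v + (if e1 then v else 0) - (if c1 then v else 0) / 2) else 0) / 2
      - (if f1 then v else 0) + (if cc then v else 0) / 2
      - (if f2 then (v + (if e1 then v else 0) - (if c1 then v else 0) / 2) else 0)
      + (if cc then (v + (if e1 then v else 0) - (if c1 then v else 0) / 2) else 0) / 2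
      + (if (f1 ∧ f2) ∧ ¬ cc then v else 0) := by
  by_cases a1 : e1
  · by_cases a2 : e2 <;> by_cases b1 : f1 <;> by_cases b2 : f2 <;> by_cases d1 : c1 <;>
      by_cases d2 : c2 <;> by_cases d3 : cc <;>
      simp only [a1, a2, b1, b2, d1, d2, d3, if_true, if_false, and_true, and_false,
        and_self, true_implies, false_implies, not_true, not_false_iff, imp_false] at h1 h2 h3 ⊢ <;>
      linarith
  · have d1 : ¬ c1 := fun h => a1 (h1 h)
    by_cases a2 : e2 <;> by_cases b1 : f1 <;> by_cases b2 : f2 <;>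
      by_cases d2 : c2 <;> by_cases d3 : cc <;>
      simp only [a1, a2, b1, b2, d1, d2, d3, if_true, if_false, and_true, and_false,
        and_self, true_implies, false_implies, not_true, not_false_iff, imp_false] at h1 h2 h3 ⊢ <;>
      linarith

/-- pointwise inequality for a clique in a round of Forcer -/
theorem ptF_x {v : ℝ} (hv : 0 ≤ v) (f1 f2 e1 e2 : Prop)
    [Decidable e1] [Decidable e2] [Decidable f1] [Decidable f2] :
    v - (if f1 then v else 0) - (if f2 then (if f1 then 0 else v) else 0)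
      + (if e1 then v else 0) + (if e2 then (if f1 then 0 else v) else 0)
      - ((if e1 ∧ f1 then v else 0) + (if e1 ∧ f2 then v else 0) +
        (if e2 ∧ f2 then v else 0))
    ≤ if e2 then 2 * (if e1 then 2 * (if f2 then 0 else if f1 then 0 else v) else
        (if f2 then 0 else if f1 then 0 else v)) else
        (if e1 then 2 * (if f2 then 0 else if f1 then 0 else v) else
        (if f2 then 0 else if f1 then 0 else v)) := by
  by_cases a1 : e1 <;> by_cases a2 : e2 <;> by_cases b1 : f1 <;> by_cases b2 : f2 <;>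
    simp only [a1, a2, b1, b2, if_true, if_false, and_true, and_false,
      and_self] <;> linarith

/-- pointwise inequality for a pair in a round of Forcer -/
theorem ptF_y {v : ℝ} (hv : 0 ≤ v) (f1 f2 e1 e2 cc : Prop)
    [Decidable e1] [Decidable e2] [Decidable f1] [Decidable f2] [Decidable cc]
    (h3 : cc → e1 ∧ e2) :
    (if cc then 3 * (if f2 then 0 else if f1 then 0 else v) else
      if e1 then (if e2 then 4 * (if f2 then 0 else if f1 then 0 else v) else
        2 * (if f2 then 0 else if f1 then 0 else v)) else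
        (if e2 then 2 * (if f2 then 0 else if f1 then 0 else v) else
        (if f2 then 0 else if f1 then 0 else v)))
    ≤ v - (if f1 then v else 0) - (if f2 then (if f1 then 0 else v) else 0)
      + (if e1 then v else 0) + (if e2 then (if f1 then 0 else v) else 0)
      + (if (e1 ∧ e2) ∧ ¬ cc then v else 0) := by
  by_cases a1 : e1 <;> by_cases a2 : e2 <;> by_cases b1 : f1 <;> by_cases b2 : f2 <;>
    by_cases d3 : cc <;>
    simp only [a1, a2, b1, b2, d3, if_true, if_false, and_true, and_false,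
        and_self, true_implies, false_implies, not_true, not_false_iff, imp_false] at h3 ⊢ <;>
      linarith

/-- A round of Maker: he claims `e1`, `e2` with the links `(e1, p1)`, `(e2, p2)`, then `f1`, `f2`
are killed. -/
theorem round_M (hg : ∀ j, 0 ≤ g j)
    {e1 e2 f1 f2 p1 p2 : Sym2 (Fin N)} (he1 : e1 ∉ C) (he2 : e2 ∉ insert e1 C)
    (hl1 : (e1, p1) ∉ D) (hl2 : (e2, p2) ∉ insert (e1, p1) D)
    (h1 : gainM g C K D F f1 f2 ≤ gainM g C K D F e1 p1)
    (h2 : gainM g (insert e1 C) K (insert (e1, p1) D) F f2 f1 ≤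
      gainM g (insert e1 C) K (insert (e1, p1) D) F e2 p2)
    {θ : ℝ} (ha : t2 2 C K F e1 f1 ≤ θ) (hb : t2 2 C K F e1 f2 ≤ θ)
    (hc : t2 2 C K F e2 f1 ≤ θ) (hd : t2 2 C K F e2 f2 ≤ θ)
    (hz : zi g C K D F f1 f2 ≤ 2 * θ) :
    Lam g C K D F - 10 * θ ≤
      Lam g (insert e2 (insert e1 C)) (insert f2 (insert f1 K))
        (insert (e2, p2) (insert (e1, p1) D)) F := by
  have hX : ∑ A ∈ F, (x 2 C K A + (if e1 ∈ ed A then x 2 C K A else 0)
      + (if e2 ∈ ed A then x 2 (insert e1 C) K A else 0)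
      - (if f1 ∈ ed A then x 2 C K A else 0)
      - (if f2 ∈ ed A then x 2 (insert e1 C) K A else 0)
      - 2 * ((if e1 ∈ ed A ∧ f1 ∈ ed A then x 2 C K A else 0) +
        (if e1 ∈ ed A ∧ f2 ∈ ed A then x 2 C K A else 0) +
        (if e2 ∈ ed A ∧ f1 ∈ ed A then x 2 C K A else 0) +
        (if e2 ∈ ed A ∧ f2 ∈ ed A then x 2 C K A else 0)))
      ≤ ∑ A ∈ F, x 2 (insert e2 (insert e1 C)) (insert f2 (insert f1 K)) A := by
    refine Finset.sum_le_sum fun A _ => ?_
    have hx : 0 ≤ x 2 C K A := x_nonneg (by norm_num)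
    rw [x_kill (f := f2), x_kill (f := f1), x_claim two_ne_zero he2, x_claim two_ne_zero he1]
    exact ptM_x hx (e1 ∈ ed A) (e2 ∈ ed A) (f1 ∈ ed A) (f2 ∈ ed A)
  have hY : ∑ p ∈ F ×ˢ F, y g (insert e2 (insert e1 C)) (insert f2 (insert f1 K))
        (insert (e2, p2) (insert (e1, p1) D)) p ≤
      ∑ p ∈ F ×ˢ F, (y g C K D p + (if e1 ∈ ed p.1 ∪ ed p.2 then y g C K D p else 0)
      - (if cr (e1, p1) p then y g C K D p else 0) / 2
      + (if e2 ∈ ed p.1 ∪ ed p.2 then y g (insert e1 C) K (insert (e1, p1) D) p else 0)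
      - (if cr (e2, p2) p then y g (insert e1 C) K (insert (e1, p1) D) p else 0) / 2
      - (if f1 ∈ ed p.1 ∪ ed p.2 then y g C K D p else 0)
      + (if cr (f1, f2) p then y g C K D p else 0) / 2
      - (if f2 ∈ ed p.1 ∪ ed p.2 then y g (insert e1 C) K (insert (e1, p1) D) p else 0)
      + (if cr (f1, f2) p then y g (insert e1 C) K (insert (e1, p1) D) p else 0) / 2
      + (if (f1 ∈ ed p.1 ∪ ed p.2 ∧ f2 ∈ ed p.1 ∪ ed p.2) ∧ ¬ cr (f1, f2) p
          then y g C K D p else 0)) := by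
    refine Finset.sum_le_sum fun p _ => ?_
    have hy : 0 ≤ y g C K D p := y_nonneg hg
    rw [y_kill (f := f2), y_kill (f := f1), y_claim he2 hl2, y_claim he1 hl1]
    exact ptM_y hy (e1 ∈ ed p.1 ∪ ed p.2) (e2 ∈ ed p.1 ∪ ed p.2)
      (f1 ∈ ed p.1 ∪ ed p.2) (f2 ∈ ed p.1 ∪ ed p.2) (cr (e1, p1) p) (cr (e2, p2) p)
      (cr (f1, f2) p) cr_left cr_left (fun h => ⟨cr_left h, cr_right h⟩)
  have hsw : zc g (insert e1 C) K (insert (e1, p1) D) F f2 f1 =
      ∑ p ∈ F ×ˢ F, if cr (f1, f2) p then y g (insert e1 C) K (insert (e1, p1) D) p else 0 := by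
    unfold zc
    refine Finset.sum_congr rfl fun p _ => ?_
    simp only [cr_swap (e := f2) (f := f1)]
  simp only [Finset.sum_add_distrib, Finset.sum_sub_distrib, ← Finset.mul_sum,
    ← Finset.sum_div] at hX hY
  unfold gainM at h1 h2
  rw [hsw] at h2
  unfold t z zc at h1
  unfold t z zc at h2
  unfold t2 at ha hb hc hd
  unfold zi at hz
  unfold Lam
  linarith

/-- A round of Forcer: he kills `f1`, `f2`, then `e1`, `e2` are claimed, link `(e1, e2)`. -/
theorem round_F (hg : ∀ j, 0 ≤ g j)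
    {e1 e2 f1 f2 : Sym2 (Fin N)} (he1 : e1 ∉ C) (he2 : e2 ∉ insert e1 C) (hl : (e1, e2) ∉ D)
    (h1 : gainF g C K D F e1 ≤ gainF g C K D F f1)
    (h2 : gainF g C (insert f1 K) D F e2 ≤ gainF g C (insert f1 K) D F f2)
    {θ : ℝ} (ha : t2 2 C K F e1 f1 ≤ θ) (hb : t2 2 C K F e1 f2 ≤ θ)
    (hd : t2 2 C K F e2 f2 ≤ θ)
    (hz : zi g C K D F e1 e2 ≤ 2 * θ) :
    Lam g C K D F - 10 * θ ≤
      Lam g (insert e2 (insert e1 C)) (insert f2 (insert f1 K)) (insert (e1, e2) D) F := by
  have hX : ∑ A ∈ F, (x 2 C K A - (if f1 ∈ ed A then x 2 C K A else 0)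
      - (if f2 ∈ ed A then x 2 C (insert f1 K) A else 0)
      + (if e1 ∈ ed A then x 2 C K A else 0)
      + (if e2 ∈ ed A then x 2 C (insert f1 K) A else 0)
      - ((if e1 ∈ ed A ∧ f1 ∈ ed A then x 2 C K A else 0) +
        (if e1 ∈ ed A ∧ f2 ∈ ed A then x 2 C K A else 0) +
        (if e2 ∈ ed A ∧ f2 ∈ ed A then x 2 C K A else 0)))
      ≤ ∑ A ∈ F, x 2 (insert e2 (insert e1 C)) (insert f2 (insert f1 K)) A := by
    refine Finset.sum_le_sum fun A _ => ?_
    have hx : 0 ≤ x 2 C K A := x_nonneg (by norm_num)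
    rw [x_claim two_ne_zero he2, x_claim two_ne_zero he1, x_kill (f := f2), x_kill (f := f1)]
    exact ptF_x hx (f1 ∈ ed A) (f2 ∈ ed A) (e1 ∈ ed A) (e2 ∈ ed A)
  have hY : ∑ p ∈ F ×ˢ F, y g (insert e2 (insert e1 C)) (insert f2 (insert f1 K))
        (insert (e1, e2) D) p ≤
      ∑ p ∈ F ×ˢ F, (y g C K D p - (if f1 ∈ ed p.1 ∪ ed p.2 then y g C K D p else 0)
      - (if f2 ∈ ed p.1 ∪ ed p.2 then y g C (insert f1 K) D p else 0)
      + (if e1 ∈ ed p.1 ∪ ed p.2 then y g C K D p else 0)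
      + (if e2 ∈ ed p.1 ∪ ed p.2 then y g C (insert f1 K) D p else 0)
      + (if (e1 ∈ ed p.1 ∪ ed p.2 ∧ e2 ∈ ed p.1 ∪ ed p.2) ∧ ¬ cr (e1, e2) p
          then y g C K D p else 0)) := by
    refine Finset.sum_le_sum fun p _ => ?_
    have hy : 0 ≤ y g C K D p := y_nonneg hg
    rw [y_claim_two he1 he2 hl, y_kill (f := f2), y_kill (f := f1)]
    exact ptF_y hy (f1 ∈ ed p.1 ∪ ed p.2) (f2 ∈ ed p.1 ∪ ed p.2)
      (e1 ∈ ed p.1 ∪ ed p.2) (e2 ∈ ed p.1 ∪ ed p.2) (cr (e1, e2) p)
      (fun h => ⟨cr_left h, cr_right h⟩)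
  have h0 : 0 ≤ θ := by
    refine le_trans ?_ ha
    unfold t2
    exact Finset.sum_nonneg fun A _ => by
      split_ifs
      · exact x_nonneg (by norm_num)
      · exact le_rfl
  simp only [Finset.sum_add_distrib, Finset.sum_sub_distrib] at hX hY
  unfold gainF t z at h1 h2
  unfold t2 at ha hb hd
  unfold zi at hz
  unfold Lam
  linarith

end C0l1
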