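import Pool.Agent.W_c0l1_h38.State
import Pool.Agent.W_c0l1_h38.Round
import Pool.Agent.W_c0l1_h38.Thr
import Pool.Agent.W_c0l1_h38.LocT
import Pool.Agent.W_c0l1_h38.Init

/-! # The two games -/

set_option autoImplicit false

namespace C0l1

open scoped Classical
open C0lo

variable {N q : ℕ}

/-- the maximising family -/
noncomputable def FF (N q : ℕ) (C K : Finset (Sym2 (Fin N)))
    (D : Finset (Sym2 (Fin N) × Sym2 (Fin N))) : Finset (Finset (Fin N)) :=
  Fmax q (gg N q) C K D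

theorem FF_sub {C K : Finset (Sym2 (Fin N))} {D : Finset (Sym2 (Fin N) × Sym2 (Fin N))} :
    ∀ F' ⊆ FF N q C K D, Lam (gg N q) C K D F' ≤ Lam (gg N q) C K D (FF N q C K D) :=
  fun _ hF' => Fmax_max fun _ hA => Fmax_card (hF' hA)

theorem FF_loc (h : Cond N q) {C K : Finset (Sym2 (Fin N))}
    {D : Finset (Sym2 (Fin N) × Sym2 (Fin N))} (hD : Fun D) :
    ∀ S : Finset (Fin N), S.card = 3 → am C K (FF N q C K D) S ≤ th N q :=
  fun _ hS => loc h hD (fun _ hA => Fmax_card hA) FF_sub hS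

theorem FF_t2 (h : Cond N q) {C K : Finset (Sym2 (Fin N))}
    {D : Finset (Sym2 (Fin N) × Sym2 (Fin N))} (hD : Fun D) {e f : Sym2 (Fin N)}
    (he : ¬ e.IsDiag) (hf : ¬ f.IsDiag) (hef : e ≠ f) :
    t2 2 C K (FF N q C K D) e f ≤ th N q :=
  t2_le (FF_loc h hD) he hf hef

theorem FF_zi (h : Cond N q) {C K : Finset (Sym2 (Fin N))}
    {D : Finset (Sym2 (Fin N) × Sym2 (Fin N))} (hD : Fun D) {e f : Sym2 (Fin N)}
    (he : ¬ e.IsDiag) (hf : ¬ f.IsDiag) (hef : e ≠ f) :
    zi (gg N q) C K D (FF N q C K D) e f ≤ 2 * th N q := by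
  have h1 := zi_le (F := FF N q C K D) (gg_nonneg N q) FF_sub e f
  have h2 := FF_t2 h hD he hf hef (C := C) (K := K)
  linarith

theorem FF_t (h : Cond N q) {C K : Finset (Sym2 (Fin N))}
    {D : Finset (Sym2 (Fin N) × Sym2 (Fin N))} (hD : Fun D) {e : Sym2 (Fin N)}
    (he : ¬ e.IsDiag) : t 2 C K (FF N q C K D) e ≤ N * th N q :=
  t_le h.hq (th_pos h).le (FF_loc h hD) (fun _ hA => Fmax_card hA) he

/-- the value of a position -/
noncomputable def val (q : ℕ) (C K : Finset (Sym2 (Fin N)))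
    (D : Finset (Sym2 (Fin N) × Sym2 (Fin N))) : ℝ :=
  Lam (gg N q) C K D (FF N q C K D)

/-- the links in the game of Maker -/
noncomputable def DM (q : ℕ) (π : ℕ → Sym2 (Fin N)) (n : ℕ) :
    Finset (Sym2 (Fin N) × Sym2 (Fin N)) :=
  (SM q (gg N q) π n).1

/-- the function maximised by Maker -/
noncomputable def vM (N q : ℕ) [NeZero N] (l : List (Sym2 (Fin N))) (e : Sym2 (Fin N)) : ℝ :=
  gainM (gg N q) (Cs (sq l) l.length) (Ks (sq l) l.length)
    (SM q (gg N q) (sq l) l.length).1 (SM q (gg N q) (sq l) l.length).2 e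
    (pb (gg N q) (Cs (sq l) l.length) (Ks (sq l) l.length)
      (SM q (gg N q) (sq l) l.length).1 (SM q (gg N q) (sq l) l.length).2 e)

/-- the function maximised by Forcer -/
noncomputable def vF (N q : ℕ) [NeZero N] (l : List (Sym2 (Fin N))) (e : Sym2 (Fin N)) : ℝ :=
  gainF (gg N q) (Cs (sq l) l.length) (Ks (sq l) l.length) (DF (sq l) l.length)
    (FF N q (Cs (sq l) ((l.length + 2) / 4 * 4 - 2)) (Ks (sq l) ((l.length + 2) / 4 * 4 - 2))
      (DF (sq l) ((l.length + 2) / 4 * 4 - 2))) e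

theorem vM_eq [NeZero N] (π : ℕ → Sym2 (Fin N)) (n : ℕ) (e : Sym2 (Fin N)) :
    vM N q ((List.range n).map π) e = gainM (gg N q) (Cs π n) (Ks π n)
      (SM q (gg N q) π n).1 (SM q (gg N q) π n).2 e
      (pb (gg N q) (Cs π n) (Ks π n) (SM q (gg N q) π n).1 (SM q (gg N q) π n).2 e) := by
  have hl : ((List.range n).map π).length = n := by rw [List.length_map, List.length_range]
  unfold vM
  rw [hl, Cs_congr (sq_map π n), Ks_congr (sq_map π n), SM_congr (sq_map π n)]

theorem vF_eq [NeZero N] (π : ℕ → Sym2 (Fin N)) (n m : ℕ) (hm : (n + 2) / 4 * 4 - 2 = m)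
    (e : Sym2 (Fin N)) :
    vF N q ((List.range n).map π) e = gainF (gg N q) (Cs π n) (Ks π n) (DF π n)
      (FF N q (Cs π m) (Ks π m) (DF π m)) e := by
  have hl : ((List.range n).map π).length = n := by rw [List.length_map, List.length_range]
  unfold vF
  rw [hl, hm, Cs_congr (sq_map π n), Ks_congr (sq_map π n), DF_congr (sq_map π n),
    Cs_congr (n := m) (fun i hi => sq_map π n i (by omega)),
    Ks_congr (n := m) (fun i hi => sq_map π n i (by omega)),
    DF_congr (n := m) (fun i hi => sq_map π n i (by omega))]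

section play

variable {π : ℕ → Sym2 (Fin N)} (h1 : ∀ i < N.choose 2, ¬ Sym2.IsDiag (π i))
  (h2 : ∀ i < N.choose 2, ∀ j < N.choose 2, π i = π j → i = j)

include h2

theorem not_mem_Cs {n m : ℕ} (hn : n < N.choose 2) (hm : m ≤ n) : π n ∉ Cs π m := by
  rw [mem_Cs]
  rintro ⟨i, hi, _, h⟩
  have := h2 i (by omega) n hn h
  omega

theorem not_mem_Ks {n m : ℕ} (hn : n < N.choose 2) (hm : m ≤ n) : π n ∉ Ks π m := by
  rw [mem_Ks]
  rintro ⟨i, hi, _, h⟩
  have := h2 i (by omega) n hn h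
  omega

include h1

/-- one round of Maker -/
theorem stepM [NeZero N] (h : Cond N q)
    (h3 : ∀ i < N.choose 2, i % 4 < 2 → π i = greedy (vM N q) ((List.range i).map π))
    {n : ℕ} (hn4 : n % 4 = 0) (hn : n + 4 ≤ N.choose 2) :
    val q (Cs π n) (Ks π n) (DM q π n) - 10 * th N q ≤
      val q (Cs π (n + 4)) (Ks π (n + 4)) (DM q π (n + 4)) := by
  have hC1 : Cs π (n + 1) = insert (π n) (Cs π n) := Cs_succ_claim (by omega)
  have hC2 : Cs π (n + 2) = insert (π (n + 1)) (insert (π n) (Cs π n)) := by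
    rw [Cs_succ_claim (n := n + 1) (by omega), hC1]
  have hC3 : Cs π (n + 3) = Cs π (n + 2) := Cs_succ_kill (n := n + 2) (by omega)
  have hC4 : Cs π (n + 4) = insert (π (n + 1)) (insert (π n) (Cs π n)) := by
    rw [Cs_succ_kill (n := n + 3) (by omega), hC3, hC2]
  have hK1 : Ks π (n + 1) = Ks π n := Ks_succ_claim (by omega)
  have hK2 : Ks π (n + 2) = Ks π n := by rw [Ks_succ_claim (n := n + 1) (by omega), hK1]
  have hK3 : Ks π (n + 3) = insert (π (n + 2)) (Ks π n) := by
    rw [Ks_succ_kill (n := n + 2) (by omega), hK2]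
  have hK4 : Ks π (n + 4) = insert (π (n + 3)) (insert (π (n + 2)) (Ks π n)) := by
    rw [Ks_succ_kill (n := n + 3) (by omega), hK3]
  obtain ⟨D, hD⟩ : ∃ D, D = (SM q (gg N q) π n).1 := ⟨_, rfl⟩
  obtain ⟨F, hF⟩ : ∃ F, F = FF N q (Cs π n) (Ks π n) D := ⟨_, rfl⟩
  have hF0 : (SM q (gg N q) π n).2 = F := by
    rw [SM_snd hn4, hF, hD]
    rfl
  obtain ⟨p1, hp1⟩ : ∃ p1, p1 = pb (gg N q) (Cs π n) (Ks π n) D F (π n) := ⟨_, rfl⟩
  have hD1 : (SM q (gg N q) π (n + 1)).1 = insert (π n, p1) D := by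
    rw [SM_fst_claim (by omega), ← hD, hF0, ← hp1]
  have hF1 : (SM q (gg N q) π (n + 1)).2 = F := by
    rw [SM_snd_same (by omega), hF0]
  obtain ⟨p2, hp2⟩ : ∃ p2, p2 = pb (gg N q) (Cs π (n + 1)) (Ks π (n + 1))
      (insert (π n, p1) D) F (π (n + 1)) := ⟨_, rfl⟩
  have hD2 : (SM q (gg N q) π (n + 2)).1 = insert (π (n + 1), p2) (insert (π n, p1) D) := by
    rw [SM_fst_claim (n := n + 1) (by omega), hD1, hF1, ← hp2]
  have hD4 : (SM q (gg N q) π (n + 4)).1 = insert (π (n + 1), p2) (insert (π n, p1) D) := by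
    rw [SM_fst_kill (n := n + 3) (by omega), SM_fst_kill (n := n + 2) (by omega), hD2]
  have hne : ∀ i j, i < n + 4 → j < n + 4 → i ≠ j → π i ≠ π j :=
    fun i j hi hj hij he => hij (h2 i (by omega) j (by omega) he)
  have hd : ∀ i, i < n + 4 → ¬ Sym2.IsDiag (π i) := fun i hi => h1 i (by omega)
  have hfun : Fun D := hD ▸ SM_fun (M := N.choose 2) h2 (by omega)
  have hg1 := greedy_max (vM N q) (n := n) (by omega) (h3 n (by omega) (by omega))
    (hd (n + 2) (by omega)) (fun j hj => hne j (n + 2) (by omega) (by omega) (by omega))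
  rw [vM_eq π n, vM_eq π n, hF0, ← hD, ← hp1] at hg1
  have hb1 : gainM (gg N q) (Cs π n) (Ks π n) D F (π (n + 2)) (π (n + 3)) ≤
      gainM (gg N q) (Cs π n) (Ks π n) D F (π n) p1 := by
    refine le_trans ?_ hg1
    have := pb_max (gg N q) (C := Cs π n) (K := Ks π n) D F (e := π (n + 2)) (f := π (n + 3))
      (hd _ (by omega)) (not_mem_Cs h2 (by omega) (by omega))
      (not_mem_Ks h2 (by omega) (by omega)) (hne _ _ (by omega) (by omega) (by omega))
    unfold gainM
    linarith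
  have hg2 := greedy_max (vM N q) (n := n + 1) (by omega) (h3 (n + 1) (by omega) (by omega))
    (hd (n + 3) (by omega)) (fun j hj => hne j (n + 3) (by omega) (by omega) (by omega))
  rw [vM_eq π (n + 1), vM_eq π (n + 1), hD1, hF1, ← hp2] at hg2
  have hb2 : gainM (gg N q) (Cs π (n + 1)) (Ks π (n + 1)) (insert (π n, p1) D) F (π (n + 3))
      (π (n + 2)) ≤ gainM (gg N q) (Cs π (n + 1)) (Ks π (n + 1)) (insert (π n, p1) D) F
        (π (n + 1)) p2 := by
    refine le_trans ?_ hg2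
    have := pb_max (gg N q) (C := Cs π (n + 1)) (K := Ks π (n + 1)) (insert (π n, p1) D) F
      (e := π (n + 3)) (f := π (n + 2))
      (hd _ (by omega)) (not_mem_Cs h2 (by omega) (by omega))
      (not_mem_Ks h2 (by omega) (by omega)) (hne _ _ (by omega) (by omega) (by omega))
    unfold gainM
    linarith
  rw [hC1, hK1] at hb2
  have hl1 : (π n, p1) ∉ D := by
    intro hm
    rw [hD] at hm
    exact not_mem_Cs h2 (n := n) (m := n) (by omega) le_rfl (SM_fst hm)
  have hl2 : (π (n + 1), p2) ∉ insert (π n, p1) D := by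
    intro hm
    rw [← hD1] at hm
    exact not_mem_Cs h2 (n := n + 1) (m := n + 1) (by omega) le_rfl (SM_fst hm)
  have hr := round_M (F := F) (gg_nonneg N q)
    (not_mem_Cs h2 (n := n) (m := n) (by omega) le_rfl)
    (by rw [← hC1]; exact not_mem_Cs h2 (n := n + 1) (m := n + 1) (by omega) le_rfl)
    hl1 hl2 hb1 hb2 (θ := th N q)
    (by rw [hF]; exact FF_t2 h hfun (hd _ (by omega)) (hd _ (by omega))
          (hne _ _ (by omega) (by omega) (by omega)))
    (by rw [hF]; exact FF_t2 h hfun (hd _ (by omega)) (hd _ (by omega))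
          (hne _ _ (by omega) (by omega) (by omega)))
    (by rw [hF]; exact FF_t2 h hfun (hd _ (by omega)) (hd _ (by omega))
          (hne _ _ (by omega) (by omega) (by omega)))
    (by rw [hF]; exact FF_t2 h hfun (hd _ (by omega)) (hd _ (by omega))
          (hne _ _ (by omega) (by omega) (by omega)))
    (by rw [hF]; exact FF_zi h hfun (hd _ (by omega)) (hd _ (by omega))
          (hne _ _ (by omega) (by omega) (by omega)))
  unfold val DM
  rw [← hD, ← hF, hD4, hC4, hK4]
  exact hr.trans (Fmax_max fun A hA => Fmax_card (q := q) (by rw [hF] at hA; exact hA))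

/-- one round of Forcer -/
theorem stepF [NeZero N] (h : Cond N q)
    (h3 : ∀ i < N.choose 2, 2 ≤ i % 4 → π i = greedy (vF N q) ((List.range i).map π))
    {n : ℕ} (hn4 : n % 4 = 2) (hn : n + 4 ≤ N.choose 2) :
    val q (Cs π n) (Ks π n) (DF π n) - 10 * th N q ≤
      val q (Cs π (n + 4)) (Ks π (n + 4)) (DF π (n + 4)) := by
  have hC1 : Cs π (n + 1) = Cs π n := Cs_succ_kill (by omega)
  have hC2 : Cs π (n + 2) = Cs π n := by
    rw [Cs_succ_kill (n := n + 1) (by omega), hC1]
  have hC3 : Cs π (n + 3) = insert (π (n + 2)) (Cs π n) := by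
    rw [Cs_succ_claim (n := n + 2) (by omega), hC2]
  have hC4 : Cs π (n + 4) = insert (π (n + 3)) (insert (π (n + 2)) (Cs π n)) := by
    rw [Cs_succ_claim (n := n + 3) (by omega), hC3]
  have hK1 : Ks π (n + 1) = insert (π n) (Ks π n) := Ks_succ_kill (by omega)
  have hK2 : Ks π (n + 2) = insert (π (n + 1)) (insert (π n) (Ks π n)) := by
    rw [Ks_succ_kill (n := n + 1) (by omega), hK1]
  have hK3 : Ks π (n + 3) = Ks π (n + 2) := Ks_succ_claim (n := n + 2) (by omega)
  have hK4 : Ks π (n + 4) = insert (π (n + 1)) (insert (π n) (Ks π n)) := by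
    rw [Ks_succ_claim (n := n + 3) (by omega), hK3, hK2]
  have hD1 : DF π (n + 1) = DF π n := DF_kill (by omega)
  have hD4 : DF π (n + 4) = insert (π (n + 2), π (n + 3)) (DF π n) := by
    rw [DF_claim (n := n + 2) (by omega), DF_kill (n := n + 1) (by omega), hD1]
  obtain ⟨F, hF⟩ : ∃ F, F = FF N q (Cs π n) (Ks π n) (DF π n) := ⟨_, rfl⟩
  have hne : ∀ i j, i < n + 4 → j < n + 4 → i ≠ j → π i ≠ π j :=
    fun i j hi hj hij he => hij (h2 i (by omega) j (by omega) he)
  have hd : ∀ i, i < n + 4 → ¬ Sym2.IsDiag (π i) := fun i hi => h1 i (by omega)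
  have hfun : Fun (DF π n) := DF_fun (M := N.choose 2) (by omega) h2
  have hg1 := greedy_max (vF N q) (n := n) (by omega) (h3 n (by omega) (by omega))
    (hd (n + 2) (by omega)) (fun j hj => hne j (n + 2) (by omega) (by omega) (by omega))
  rw [vF_eq π n n (by omega), vF_eq π n n (by omega), ← hF] at hg1
  have hg2 := greedy_max (vF N q) (n := n + 1) (by omega) (h3 (n + 1) (by omega) (by omega))
    (hd (n + 3) (by omega)) (fun j hj => hne j (n + 3) (by omega) (by omega) (by omega))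
  rw [vF_eq π (n + 1) n (by omega), vF_eq π (n + 1) n (by omega), hC1, hK1, hD1, ← hF] at hg2
  have hl : (π (n + 2), π (n + 3)) ∉ DF π n := by
    intro hm
    exact not_mem_Cs h2 (n := n + 2) (m := n) (by omega) (by omega) (DF_fst hm)
  have hr := round_F (F := F) (gg_nonneg N q)
    (not_mem_Cs h2 (n := n + 2) (m := n) (by omega) (by omega))
    (by rw [← hC3]; exact not_mem_Cs h2 (n := n + 3) (m := n + 3) (by omega) le_rfl)
    hl hg1 hg2 (θ := th N q)
    (by rw [hF]; exact FF_t2 h hfun (hd _ (by omega)) (hd _ (by omega))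
          (hne _ _ (by omega) (by omega) (by omega)))
    (by rw [hF]; exact FF_t2 h hfun (hd _ (by omega)) (hd _ (by omega))
          (hne _ _ (by omega) (by omega) (by omega)))
    (by rw [hF]; exact FF_t2 h hfun (hd _ (by omega)) (hd _ (by omega))
          (hne _ _ (by omega) (by omega) (by omega)))
    (by rw [hF]; exact FF_zi h hfun (hd _ (by omega)) (hd _ (by omega))
          (hne _ _ (by omega) (by omega) (by omega)))
  unfold val
  rw [← hF, hD4, hC4, hK4]
  exact hr.trans (Fmax_max fun A hA => Fmax_card (q := q) (by rw [hF] at hA; exact hA))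

/-- The last moves: some clique of the maximising family survives. -/
theorem finish (h : Cond N q) {n : ℕ} (hn : n ≤ N.choose 2) (hn3 : N.choose 2 ≤ n + 3)
    {D : Finset (Sym2 (Fin N) × Sym2 (Fin N))} (hD : Fun D)
    (hval : 3 * (N * th N q) < val q (Cs π n) (Ks π n) D) :
    ∃ s : Finset (Fin N), s.card = q ∧
      ∀ u ∈ s, ∀ v ∈ s, u ≠ v → ∃ i < N.choose 2, i % 4 < 2 ∧ π i = s(u, v) := by
  have hx : ∀ A : Finset (Fin N), 0 ≤ x 2 (Cs π n) (Ks π n) A :=
    fun A => x_nonneg (by norm_num)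
  have hth := th_pos h
  obtain ⟨F, hF⟩ : ∃ F, F = FF N q (Cs π n) (Ks π n) D := ⟨_, rfl⟩
  -- the sum of the weights is large
  have hsum : 3 * (N * th N q) < ∑ A ∈ F, x 2 (Cs π n) (Ks π n) A := by
    refine lt_of_lt_of_le hval ?_
    unfold val Lam
    rw [← hF]
    have : 0 ≤ ∑ p ∈ F ×ˢ F, y (gg N q) (Cs π n) (Ks π n) D p :=
      Finset.sum_nonneg fun p _ => y_nonneg (gg_nonneg N q)
    linarith
  -- a clique which contains none of the last edges
  have hex : ∃ A ∈ F, x 2 (Cs π n) (Ks π n) A ≠ 0 ∧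
      ∀ i, n ≤ i → i < N.choose 2 → 2 ≤ i % 4 → π i ∉ ed A := by
    by_contra hcon
    have hcon' : ∀ A ∈ F, x 2 (Cs π n) (Ks π n) A ≠ 0 →
        ∃ i, n ≤ i ∧ i < N.choose 2 ∧ π i ∈ ed A := by
      intro A hA hA0
      by_contra hc
      apply hcon
      refine ⟨A, hA, hA0, fun i hi1 hi2 _ hi4 => hc ⟨i, hi1, hi2, hi4⟩⟩
    have hle : ∑ A ∈ F, x 2 (Cs π n) (Ks π n) A ≤
        ∑ i ∈ Finset.Ico n (N.choose 2), t 2 (Cs π n) (Ks π n) F (π i) := by
      unfold t
      rw [Finset.sum_comm]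
      refine Finset.sum_le_sum fun A hA => ?_
      by_cases h0 : x 2 (Cs π n) (Ks π n) A = 0
      · rw [h0]
        exact Finset.sum_nonneg fun i _ => by split_ifs <;> exact le_rfl
      · obtain ⟨i, hi1, hi2, hi3⟩ := hcon' A hA h0
        refine le_trans ?_ (Finset.single_le_sum (f := fun i => if π i ∈ ed A then
          x 2 (Cs π n) (Ks π n) A else 0) (fun i _ => by
            show 0 ≤ if π i ∈ ed A then x 2 (Cs π n) (Ks π n) A else 0
            split_ifs
            · exact hx A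
            · exact le_rfl) (Finset.mem_Ico.2 ⟨hi1, hi2⟩))
        show x 2 (Cs π n) (Ks π n) A ≤ if π i ∈ ed A then
          x 2 (Cs π n) (Ks π n) A else 0
        rw [if_pos hi3]
    have hle2 : ∑ i ∈ Finset.Ico n (N.choose 2), t 2 (Cs π n) (Ks π n) F (π i) ≤
        ∑ i ∈ Finset.Ico n (N.choose 2), N * th N q :=
      Finset.sum_le_sum fun i hi => by
        rw [hF]
        exact FF_t h hD (h1 i (Finset.mem_Ico.1 hi).2)
    rw [Finset.sum_const, Nat.card_Ico, nsmul_eq_mul] at hle2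
    have hN : (0 : ℝ) ≤ N * th N q := by positivity
    have h4 : ((N.choose 2 - n : ℕ) : ℝ) ≤ 3 := by
      exact_mod_cast (show N.choose 2 - n ≤ 3 by omega)
    nlinarith
  obtain ⟨A, hA, hA0, hA1⟩ := hex
  refine ⟨A, Fmax_card (q := q) (by rw [hF] at hA; exact hA), fun u hu v hv huv => ?_⟩
  have he : s(u, v) ∈ ed A := by
    rw [mem_ed]
    refine ⟨fun k hk => ?_, fun hd => huv hd⟩
    rcases Sym2.mem_iff.1 hk with h | h
    · rw [h]; exact hu
    · rw [h]; exact hv
  obtain ⟨i, hi, hie⟩ := all_played h1 h2 (e := s(u, v)) (fun hd => huv hd)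
  refine ⟨i, hi, ?_, hie⟩
  by_contra hcon
  by_cases hin : n ≤ i
  · exact hA1 i hin hi (by omega) (hie ▸ he)
  · have hK : s(u, v) ∈ Ks π n := mem_Ks.2 ⟨i, by omega, by omega, hie⟩
    apply hA0
    unfold x w
    rw [if_neg]
    intro hdis
    exact Finset.disjoint_left.1 hdis he hK

end play

end C0l1
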