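import Pool.Agent.W_c0l1_h38.LocD

/-! # Pairs with a large intersection -/

set_option autoImplicit false

namespace C0l1

open scoped Classical
open C0lo

variable {N : ℕ} {C K : Finset (Sym2 (Fin N))} {F : Finset (Finset (Fin N))}

/-- TASK LocA1. PROOF. `T' ↦ T' \ T` is injective on the sets `T'` with `T ⊆ T' ⊆ A` and maps the
sets with `T.card + m` elements into `(A \ T).powersetCard m`, which has
`(A.card - T.card).choose m` elements (`Finset.card_powersetCard`, `Finset.card_sdiff_of_subset`).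
-/
theorem card_between {A T : Finset (Fin N)} (h : T ⊆ A) (m : ℕ) :
    ((Finset.univ : Finset (Finset (Fin N))).filter
      (fun T' => (T ⊆ T' ∧ T'.card = T.card + m) ∧ T' ⊆ A)).card ≤
      (A.card - T.card).choose m := by
  rw [← Finset.card_sdiff_of_subset h, ← Finset.card_powersetCard]
  refine Finset.card_le_card_of_injOn (fun T' => T' \ T) ?_ ?_
  · intro T' hT'
    obtain ⟨⟨h1, h2⟩, h3⟩ := (Finset.mem_filter.1 (Finset.mem_coe.1 hT')).2
    rw [Finset.mem_coe, Finset.mem_powersetCard]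
    refine ⟨Finset.sdiff_subset_sdiff h3 le_rfl, ?_⟩
    rw [Finset.card_sdiff_of_subset h1]
    omega
  · intro T1 hT1 T2 hT2 heq
    obtain ⟨⟨h1, _⟩, _⟩ := (Finset.mem_filter.1 (Finset.mem_coe.1 hT1)).2
    obtain ⟨⟨h2, _⟩, _⟩ := (Finset.mem_filter.1 (Finset.mem_coe.1 hT2)).2
    have heq' : T1 \ T = T2 \ T := heq
    rw [← Finset.sdiff_union_of_subset h1, ← Finset.sdiff_union_of_subset h2, heq']

theorem LocA_am {T T' : Finset (Fin N)} (h : T ⊆ T') :
    am C K F T' = ∑ A ∈ sub F T, if T' ⊆ A then x 2 C K A else 0 := by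
  unfold am
  rw [← Finset.sum_filter]
  apply Finset.sum_congr ?_ (fun _ _ => rfl)
  ext A
  rw [Finset.mem_filter, mem_sub, mem_sub]
  exact ⟨fun hA => ⟨⟨hA.1, h.trans hA.2⟩, hA.2⟩, fun hA => ⟨hA.1.1, hA.2⟩⟩

/-- TASK LocA2. PROOF. Write `F' = sub F T`, `b = T.card`, `a = am C K F T`,
`U = {T' | T ⊆ T' ∧ T'.card = b + m}` (filter of univ). For `A, B ∈ F'` with
`b + m ≤ (A ∩ B).card` there is `T' ∈ U` with `T' ⊆ A ∩ B` (`Finset.exists_subsuperset_card_eq`), so
`[b + m ≤ (A ∩ B).card] x A x B ≤ ∑ T' ∈ U, [T' ⊆ A] x A [T' ⊆ B] x B`. Interchange the sums: the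
left hand side is `≤ ∑ T' ∈ U, (am T') ^ 2` (for `T' ∈ U` and `A ∈ F`, `T' ⊆ A` implies `T ⊆ A`).
Here `am T' ≤ a / r`, so it is `≤ (a / r) ∑ T' ∈ U, am T'`, and
`∑ T' ∈ U, am T' = ∑ A ∈ F', x A * #{T' ∈ U | T' ⊆ A} ≤ (q - b).choose m * a` by
`card_between`. -/
theorem big_inter {q : ℕ} (hF : ∀ A ∈ F, A.card = q) {T : Finset (Fin N)} {m : ℕ}
    {r : ℝ} (hr : 0 < r)
    (h : ∀ T' : Finset (Fin N), T ⊆ T' → T'.card = T.card + m →
      am C K F T' * r ≤ am C K F T) :
    ∑ p ∈ sub F T ×ˢ sub F T,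
      (if T.card + m ≤ (p.1 ∩ p.2).card then x 2 C K p.1 * x 2 C K p.2 else 0) ≤
      ((q - T.card).choose m : ℝ) / r * am C K F T ^ 2 := by
  obtain ⟨U, hU⟩ : ∃ U, U = (Finset.univ : Finset (Finset (Fin N))).filter
    (fun T' => T ⊆ T' ∧ T'.card = T.card + m) := ⟨_, rfl⟩
  have hUm : ∀ T', T' ∈ U ↔ T ⊆ T' ∧ T'.card = T.card + m := by
    intro T'
    rw [hU, Finset.mem_filter, and_iff_right (Finset.mem_univ _)]
  have ha : 0 ≤ am C K F T := am_nonneg
  -- step 1
  have h1 : ∀ p ∈ sub F T ×ˢ sub F T,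
      (if T.card + m ≤ (p.1 ∩ p.2).card then x 2 C K p.1 * x 2 C K p.2 else 0) ≤
      ∑ T' ∈ U, (if T' ⊆ p.1 then x 2 C K p.1 else 0) * (if T' ⊆ p.2 then x 2 C K p.2 else 0) := by
    intro p hp
    rw [Finset.mem_product, mem_sub, mem_sub] at hp
    have hnn : ∀ T' ∈ U, (0 : ℝ) ≤
        (if T' ⊆ p.1 then x 2 C K p.1 else 0) * (if T' ⊆ p.2 then x 2 C K p.2 else 0) := by
      intro T' _
      apply mul_nonneg
      · split_ifs
        · exact x2_nonneg
        · exact le_rfl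
      · split_ifs
        · exact x2_nonneg
        · exact le_rfl
    split_ifs with hc
    · have hsub : T ⊆ p.1 ∩ p.2 := Finset.subset_inter hp.1.2 hp.2.2
      obtain ⟨T', hT1, hT2, hT3⟩ := Finset.exists_subsuperset_card_eq hsub
        (Nat.le_add_right T.card m) hc
      have hT' : T' ∈ U := (hUm T').2 ⟨hT1, hT3⟩
      refine le_trans ?_ (Finset.single_le_sum hnn hT')
      rw [if_pos (hT2.trans Finset.inter_subset_left), if_pos (hT2.trans Finset.inter_subset_right)]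
    · exact Finset.sum_nonneg hnn
  refine (Finset.sum_le_sum h1).trans ?_
  -- step 2
  have h2 : ∑ p ∈ sub F T ×ˢ sub F T, ∑ T' ∈ U,
      (if T' ⊆ p.1 then x 2 C K p.1 else 0) * (if T' ⊆ p.2 then x 2 C K p.2 else 0) =
      ∑ T' ∈ U, am C K F T' ^ 2 := by
    rw [Finset.sum_comm]
    apply Finset.sum_congr rfl
    intro T' hT'
    rw [LocA_am ((hUm T').1 hT').1, sq, Finset.sum_product]
    rw [Finset.sum_mul_sum]
  rw [h2]
  -- step 3
  have h3 : ∀ T' ∈ U, am C K F T' ^ 2 ≤ am C K F T / r * am C K F T' := by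
    intro T' hT'
    have h4 := h T' ((hUm T').1 hT').1 ((hUm T').1 hT').2
    rw [sq]
    apply mul_le_mul_of_nonneg_right _ am_nonneg
    rw [le_div_iff₀ hr]
    exact h4
  refine (Finset.sum_le_sum h3).trans ?_
  rw [← Finset.mul_sum]
  -- step 4
  have h5 : ∑ T' ∈ U, am C K F T' ≤ ((q - T.card).choose m : ℝ) * am C K F T := by
    have h6 : ∑ T' ∈ U, am C K F T' =
        ∑ A ∈ sub F T, ((U.filter (fun T' => T' ⊆ A)).card : ℝ) * x 2 C K A := by
      rw [Finset.sum_congr rfl (fun T' hT' => LocA_am ((hUm T').1 hT').1), Finset.sum_comm]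
      apply Finset.sum_congr rfl
      intro A _
      rw [← Finset.sum_filter, Finset.sum_const, nsmul_eq_mul]
    rw [h6]
    unfold am
    rw [Finset.mul_sum]
    apply Finset.sum_le_sum
    intro A hA
    rw [mem_sub] at hA
    apply mul_le_mul_of_nonneg_right _ x2_nonneg
    have h7 := card_between hA.2 m
    rw [hF A hA.1] at h7
    have h8 : U.filter (fun T' => T' ⊆ A) = (Finset.univ : Finset (Finset (Fin N))).filter
        (fun T' => (T ⊆ T' ∧ T'.card = T.card + m) ∧ T' ⊆ A) := by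
      rw [hU, Finset.filter_filter]
    rw [h8]
    exact_mod_cast h7
  have h9 : 0 ≤ am C K F T / r := div_nonneg ha hr.le
  refine (mul_le_mul_of_nonneg_left h5 h9).trans (le_of_eq ?_)
  ring

end C0l1
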