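import Pool.Agent.W_c0l1_h38.Defs

/-! # Local masses: definition -/

set_option autoImplicit false

namespace C0l1

open scoped Classical
open C0lo

variable {N : ℕ} {g : ℕ → ℝ} {C K : Finset (Sym2 (Fin N))}
  {D : Finset (Sym2 (Fin N) × Sym2 (Fin N))} {F : Finset (Finset (Fin N))}

/-- the members of `F` which contain `T` -/
noncomputable def sub (F : Finset (Finset (Fin N))) (T : Finset (Fin N)) :
    Finset (Finset (Fin N)) :=
  F.filter (fun A => T ⊆ A)

/-- total weight of the members of `F` which contain `T` -/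
noncomputable def am (C K : Finset (Sym2 (Fin N))) (F : Finset (Finset (Fin N)))
    (T : Finset (Fin N)) : ℝ :=
  ∑ A ∈ sub F T, x 2 C K A

theorem mem_sub {A T : Finset (Fin N)} : A ∈ sub F T ↔ A ∈ F ∧ T ⊆ A := by
  unfold sub
  rw [Finset.mem_filter]

theorem sub_subset {T : Finset (Fin N)} : sub F T ⊆ F := Finset.filter_subset _ _

theorem x2_nonneg {A : Finset (Fin N)} : 0 ≤ x 2 C K A := x_nonneg (by norm_num)

theorem am_nonneg {T : Finset (Fin N)} : 0 ≤ am C K F T :=
  Finset.sum_nonneg fun _ _ => x2_nonneg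

theorem am_anti {T T' : Finset (Fin N)} (h : T ⊆ T') : am C K F T' ≤ am C K F T := by
  unfold am
  refine Finset.sum_le_sum_of_subset_of_nonneg ?_ fun _ _ _ => x2_nonneg
  intro A hA
  rw [mem_sub] at hA ⊢
  exact ⟨hA.1, h.trans hA.2⟩

end C0l1
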