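import Pool.Agent.W_c0l1_h38.NumG

/-! # First condition, large sets -/

set_option autoImplicit false

namespace C0l1

open scoped Classical
open C0lo

/-- TASK NumL1. PROOF. `C(q,2) - C(j,2) = i (2 q - i - 1) / 2` with `i = q - j`, `i ≤ 3 q / 4`, so
`2 ^ (C(j,2)) / 2 ^ (C(q,2)) = (2 ^ (-(2 q - i - 1) / 2)) ^ i` and
`(2 q - i - 1)/2 ≥ 5 q / 8 - 1/2 ≥ 39/32 L - 1/2 ≥ 121 L / 100` (`L ≥ 1000`), `q N ≤ 2 L N ≤
2 ^ (L + L / 100)`. So the base is `≤ 2 ^ (L (1 + 1/100 - 121/100)) = 2 ^ (-20 L / 100)`. -/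
theorem base_large {N q : ℕ} {L : ℝ} (h : Hyp N q L) {j : ℕ} (hj : j ≤ q) (hj4 : q ≤ 4 * j) :
    ((q : ℝ) * N) ^ (q - j) * 2 ^ (j.choose 2) ≤
      (2 : ℝ) ^ (-(20 * ((q : ℝ) - j)) * (L / 100)) * 2 ^ (q.choose 2) := by
  have hq2 := h.hq2
  have hq1 := h.hq1
  have hL := h.hL
  have hbig := h.hbig
  have hjq : (j : ℝ) ≤ q := by exact_mod_cast hj
  have hj4' : (q : ℝ) ≤ 4 * j := by exact_mod_cast hj4
  have hi : (0 : ℝ) ≤ (q : ℝ) - j := by linarith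
  have hq0 : (0 : ℝ) < q := by linarith
  have h1 : (q : ℝ) * N ≤ (2 : ℝ) ^ (L / 100 + L) := by
    rw [Real.rpow_add (by norm_num), ← h.hNL]
    refine mul_le_mul_of_nonneg_right ?_ (Nat.cast_nonneg N)
    nlinarith
  have h2 : ((q : ℝ) * N) ^ (q - j) ≤ (2 : ℝ) ^ ((L / 100 + L) * ((q : ℝ) - j)) := by
    refine (pow_le_pow_left₀ (by positivity) h1 (q - j)).trans_eq ?_
    rw [← Real.rpow_natCast, ← Real.rpow_mul (by norm_num), Nat.cast_sub hj]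
  have h3 : (2 : ℝ) ^ (j.choose 2) = (2 : ℝ) ^ ((j.choose 2 : ℕ) : ℝ) :=
    (Real.rpow_natCast _ _).symm
  have h4 : (2 : ℝ) ^ (q.choose 2) = (2 : ℝ) ^ ((q.choose 2 : ℕ) : ℝ) :=
    (Real.rpow_natCast _ _).symm
  have h5 : ((q.choose 2 : ℕ) : ℝ) - ((j.choose 2 : ℕ) : ℝ) =
      ((q : ℝ) - j) * (((q : ℝ) + j - 1) / 2) := by
    rw [Nat.cast_choose_two, Nat.cast_choose_two]
    ring
  have h6 : 121 / 100 * L ≤ ((q : ℝ) + j - 1) / 2 := by linarith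
  have h7 := mul_le_mul_of_nonneg_left h6 hi
  rw [h3, h4, ← Real.rpow_add (by norm_num)]
  calc ((q : ℝ) * N) ^ (q - j) * (2 : ℝ) ^ ((j.choose 2 : ℕ) : ℝ)
      ≤ (2 : ℝ) ^ ((L / 100 + L) * ((q : ℝ) - j)) * (2 : ℝ) ^ ((j.choose 2 : ℕ) : ℝ) :=
        mul_le_mul_of_nonneg_right h2 (by positivity)
    _ = (2 : ℝ) ^ ((L / 100 + L) * ((q : ℝ) - j) + ((j.choose 2 : ℕ) : ℝ)) :=
        (Real.rpow_add (by norm_num) _ _).symm
    _ ≤ _ := by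
        refine Real.rpow_le_rpow_of_exponent_le (by norm_num) ?_
        nlinarith

/-- TASK NumL2. PROOF. By `gg_large` and `base_large`:
`1 ≤ gg * (8 q) * 2 ^ (-20 (q-j) L / 100)` (divide by `2 ^ (q.choose 2)`). As
`8 (q - j) ≥ 7 (q - b)`, `20 (q - j) ≥ 35/2 (q - b) ≥ (q - b)`, and `(4/3)^kk ≤ 2 ^ ((q-b) L / 100)`
(`kk_large`, `pow_kk_le`). So `4 (4/3)^kk ≤ 4 (4/3)^kk gg (8 q) 2 ^ (-(q-b) L/100) ≤ 32 q gg`.
Finally `PP q b ≤ PP q q ≤ 2 ^ (19 q)` (`PP_mono`, `PP_q_le`) and `32 q 2 ^ (19 q) ≤ th` (`th_ge`).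
-/
theorem case_large {N q : ℕ} {L : ℝ} (h : Hyp N q L) {b j : ℕ} (hb : 3 ≤ b) (hb4 : q ≤ 4 * b)
    (hbj : b ≤ j) (hjq : j < q) (hj : 7 * (q - b) ≤ 8 * (q - j)) :
    4 * (4 / 3) ^ kk q b * PP q b ≤ th N q * gg N q j := by
  have hq := h.q_ge
  have hqN := h.qN
  have hL := h.hL
  have hq0 : (0 : ℝ) < q := by exact_mod_cast (by omega : 0 < q)
  have hgg := gg_nonneg N q j
  have h1 := gg_large hqN (by omega) (by omega : 3 ≤ j) hjq
  have h2 := base_large h hjq.le (by omega : q ≤ 4 * j)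
  obtain ⟨E, hE⟩ : ∃ E, E = (2 : ℝ) ^ (-(20 * ((q : ℝ) - j)) * (L / 100)) := ⟨_, rfl⟩
  rw [← hE] at h2
  have hE0 : 0 < E := by
    rw [hE]
    positivity
  have h3 : (1 : ℝ) ≤ gg N q j * (8 * q) * E := by
    have h4 : (2 : ℝ) ^ (q.choose 2) * 1 ≤ 2 ^ (q.choose 2) * (gg N q j * (8 * q) * E) := by
      calc (2 : ℝ) ^ (q.choose 2) * 1 = 2 ^ (q.choose 2) := mul_one _
        _ ≤ gg N q j * (8 * q * ((q : ℝ) * N) ^ (q - j) * 2 ^ (j.choose 2)) := h1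
        _ = gg N q j * (8 * q) * (((q : ℝ) * N) ^ (q - j) * 2 ^ (j.choose 2)) := by ring
        _ ≤ gg N q j * (8 * q) * (E * 2 ^ (q.choose 2)) :=
            mul_le_mul_of_nonneg_left h2 (by positivity)
        _ = 2 ^ (q.choose 2) * (gg N q j * (8 * q) * E) := by ring
    exact le_of_mul_le_mul_left h4 (by positivity)
  have h4 : ((4 : ℝ) / 3) ^ kk q b ≤ 2 ^ (((q : ℝ) - b) * (L / 100)) :=
    pow_kk_le (kk_large h hb (by omega))
  have hjq' : (j : ℝ) < q := by exact_mod_cast hjq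
  have hbq' : (b : ℝ) < q := by exact_mod_cast (by omega : b < q)
  have hj' : 7 * ((q : ℝ) - b) ≤ 8 * ((q : ℝ) - j) := by
    have h5 : 7 * (((q - b : ℕ) : ℝ)) ≤ 8 * ((q - j : ℕ) : ℝ) := by exact_mod_cast hj
    rwa [Nat.cast_sub (by omega), Nat.cast_sub hjq.le] at h5
  have h5 : ((4 : ℝ) / 3) ^ kk q b * E ≤ 1 := by
    calc ((4 : ℝ) / 3) ^ kk q b * E ≤ 2 ^ (((q : ℝ) - b) * (L / 100)) * E :=
          mul_le_mul_of_nonneg_right h4 hE0.le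
      _ = (2 : ℝ) ^ (((q : ℝ) - b) * (L / 100) + -(20 * ((q : ℝ) - j)) * (L / 100)) := by
          rw [hE, Real.rpow_add (by norm_num)]
      _ ≤ (2 : ℝ) ^ (0 : ℝ) := by
          refine Real.rpow_le_rpow_of_exponent_le (by norm_num) ?_
          have h6 : ((q : ℝ) - b) + -(20 * ((q : ℝ) - j)) ≤ 0 := by linarith
          rw [← add_mul]
          exact mul_nonpos_of_nonpos_of_nonneg h6 (by linarith)
      _ = 1 := Real.rpow_zero _
  have h6 : 4 * ((4 : ℝ) / 3) ^ kk q b ≤ 32 * q * gg N q j := by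
    calc 4 * ((4 : ℝ) / 3) ^ kk q b = 4 * ((4 : ℝ) / 3) ^ kk q b * 1 := (mul_one _).symm
      _ ≤ 4 * ((4 : ℝ) / 3) ^ kk q b * (gg N q j * (8 * q) * E) :=
          mul_le_mul_of_nonneg_left h3 (by positivity)
      _ = 32 * q * gg N q j * (((4 : ℝ) / 3) ^ kk q b * E) := by ring
      _ ≤ 32 * q * gg N q j * 1 := mul_le_mul_of_nonneg_left h5 (by positivity)
      _ = 32 * q * gg N q j := mul_one _
  have h7 : PP q b ≤ 2 ^ (19 * q) :=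
    (PP_mono hb (by omega) le_rfl).trans (PP_q_le (by omega))
  calc 4 * (4 / 3) ^ kk q b * PP q b ≤ 32 * q * gg N q j * 2 ^ (19 * q) :=
        mul_le_mul h6 h7 (PP_pos (by omega)).le (by positivity)
    _ = 32 * q * 2 ^ (19 * q) * gg N q j := by ring
    _ ≤ th N q * gg N q j := mul_le_mul_of_nonneg_right (th_ge h) hgg

/-- TASK NumL3. PROOF. `PP_q_le` and `th_ge` (`32 q ≥ 1`). -/
theorem case_end {N q : ℕ} {L : ℝ} (h : Hyp N q L) : PP q q ≤ th N q := by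
  have hq := h.q_ge
  have hq0 : (1 : ℝ) ≤ q := by exact_mod_cast (by omega : 1 ≤ q)
  refine (PP_q_le (by omega)).trans (le_trans ?_ (th_ge h))
  refine le_mul_of_one_le_left (by positivity) ?_
  linarith

end C0l1
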