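import Pool.Agent.W_c0l1_h38.NumS
import Pool.Agent.W_c0l1_h38.NumL
import Pool.Agent.W_c0lo_h38.NumD

/-! # The conditions hold for all large `N` -/

set_option autoImplicit false

namespace C0l1

open scoped Classical
open C0lo

/-- the clique size -/
noncomputable def qq (N : ℕ) : ℕ :=
  ⌊2 * Real.logb 2 N - 2 * Real.logb 2 (Real.logb 2 N) - 48⌋₊

/-- Standing hypotheses imply the conditions. -/
theorem cond_of_hyp {N q : ℕ} {L : ℝ} (h : Hyp N q L) : Cond N q := by
  have hq := h.q_ge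
  have hqN := h.qN
  refine ⟨by omega, hqN, by omega, ?_, case_end h⟩
  intro b hb hbq j hbj hj
  by_cases h4 : q ≤ 4 * b
  · exact case_large h hb h4 hbj (by omega) (by omega)
  · exact case_small h hb hbj (by omega)

theorem NumE_log : ∀ᶠ x : ℝ in Filter.atTop, 40 * Real.logb 2 x + 980 ≤ x := by
  have h1 := Real.isLittleO_log_id_atTop.bound (show (0 : ℝ) < Real.log 2 / 80 by
    have := Real.log_pos (show (1 : ℝ) < 2 by norm_num)
    positivity)
  filter_upwards [h1, Filter.eventually_ge_atTop (2000 : ℝ)] with x hx hx2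
  have hl2 : 0 < Real.log 2 := Real.log_pos (by norm_num)
  have h3 : Real.log x ≤ Real.log 2 / 80 * x := by
    have h4 : ‖Real.log x‖ ≤ Real.log 2 / 80 * ‖x‖ := hx
    rw [Real.norm_of_nonneg (show 0 ≤ x by linarith)] at h4
    exact (Real.le_norm_self _).trans h4
  have h5 : Real.logb 2 x ≤ x / 80 := by
    rw [Real.logb, div_le_iff₀ hl2]
    linarith
  linarith

theorem NumE_lin : ∀ᶠ x : ℝ in Filter.atTop, 2 ^ 20 * x ≤ (2 : ℝ) ^ (x / 100) := by
  have hl2 : 0 < Real.log 2 := Real.log_pos (by norm_num)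
  have h1 := (isLittleO_pow_exp_pos_mul_atTop 1 (show 0 < Real.log 2 / 100 by positivity)).bound
    (show (0 : ℝ) < 1 / 2 ^ 20 by positivity)
  filter_upwards [h1, Filter.eventually_ge_atTop (2 : ℝ)] with x hx hx2
  have h2 : ‖x ^ 1‖ ≤ 1 / 2 ^ 20 * ‖Real.exp (Real.log 2 / 100 * x)‖ := hx
  rw [Real.norm_of_nonneg (by positivity), Real.norm_of_nonneg (by positivity), pow_one] at h2
  have h3 : (2 : ℝ) ^ (x / 100) = Real.exp (Real.log 2 / 100 * x) := by
    rw [Real.rpow_def_of_pos (by norm_num)]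
    congr 1
    ring
  rw [h3]
  have h6 : 2 ^ 20 * x ≤ 2 ^ 20 * (1 / 2 ^ 20 * Real.exp (Real.log 2 / 100 * x)) :=
    mul_le_mul_of_nonneg_left h2 (by norm_num)
  refine h6.trans (le_of_eq ?_)
  ring

/-- TASK NumE1. PROOF. With `L = Real.logb 2 N → ∞` and `q = qq N`: `L ≥ 1000`, `N = 2 ^ L`,
`2 ^ 20 L ≤ 2 ^ (L / 100)` eventually (exponential beats linear, as `C0lo.NumD_pow`),
`q ≤ 2 L - 2 logb 2 L - 48 ≤ 2 L`, `q ≥ 2 L - 2 logb 2 L - 49 ≥ 39/20 L` eventually
(`logb 2 L = o(L)`, as `C0lo.NumD_log`), `2 ^ q ≤ 2 ^ (2 L - 2 logb 2 L - 48) = N ^ 2 / (L ^ 2 2 ^ 48)`.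
Compare `C0lo.cond_eventually` (file `W_c0lo_h38/NumD.lean`), which has the same structure. -/
theorem hyp_eventually : ∀ᶠ N : ℕ in Filter.atTop, Hyp N (qq N) (Real.logb 2 N) := by
  have hT : Filter.Tendsto (fun N : ℕ => Real.logb 2 (N : ℝ)) Filter.atTop Filter.atTop :=
    (Real.tendsto_logb_atTop (by norm_num)).comp tendsto_natCast_atTop_atTop
  have e1 := hT.eventually (Filter.eventually_ge_atTop (2000 : ℝ))
  have e2 := hT.eventually NumE_log
  have e3 := hT.eventually NumE_lin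
  have e4 := Filter.eventually_ge_atTop 401 (α := ℕ)
  filter_upwards [e1, e2, e3, e4] with N h1 h2 h3 h4
  set L : ℝ := Real.logb 2 (N : ℝ) with hL
  have hN : (401 : ℝ) ≤ N := by exact_mod_cast h4
  have hN0 : (0 : ℝ) < N := by linarith
  have hL0 : 0 < L := by linarith
  have hNL : (N : ℝ) = (2 : ℝ) ^ L := by
    rw [hL, Real.rpow_logb (by norm_num) (by norm_num) hN0]
  have hlL : (2 : ℝ) ^ (Real.logb 2 L) = L := Real.rpow_logb (by norm_num) (by norm_num) hL0
  have hl1 : 1 ≤ Real.logb 2 L := by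
    rw [Real.le_logb_iff_rpow_le (by norm_num) hL0, Real.rpow_one]
    linarith
  have hq1 : (qq N : ℝ) ≤ 2 * L - 2 * Real.logb 2 L - 48 := by
    unfold qq
    exact Nat.floor_le (by linarith)
  have hq2 : 2 * L - 2 * Real.logb 2 L - 48 < (qq N : ℝ) + 1 := by
    unfold qq
    exact Nat.lt_floor_add_one _
  have hpow : (2 : ℝ) ^ (qq N) ≤ (N : ℝ) ^ 2 / (L ^ 2 * 2 ^ 48) := by
    have h5 : (2 : ℝ) ^ (2 * L - 2 * Real.logb 2 L - 48) = (N : ℝ) ^ 2 / (L ^ 2 * 2 ^ 48) := by
      rw [Real.rpow_sub (by norm_num), Real.rpow_sub (by norm_num), div_div]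
      congr 1
      · rw [hNL, mul_comm, Real.rpow_mul (by norm_num)]
        norm_num
      · congr 1
        · rw [mul_comm, Real.rpow_mul (by norm_num), hlL]
          norm_cast
        · norm_cast
    rw [← h5, ← Real.rpow_natCast]
    exact Real.rpow_le_rpow_of_exponent_le (by norm_num) hq1
  refine ⟨by linarith, hNL, h3, by linarith, by linarith, ?_⟩
  rwa [mul_comm (L ^ 2)] at hpow

/-- the conditions hold for all large `N` -/
theorem cond_eventually : ∀ᶠ N : ℕ in Filter.atTop, Cond N (qq N) ∧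
    2 * Real.logb 2 N - 2 * Real.logb 2 (Real.logb 2 N) - 49 ≤ (qq N : ℝ) := by
  filter_upwards [hyp_eventually] with N h
  refine ⟨cond_of_hyp h, ?_⟩
  unfold qq
  have := Nat.lt_floor_add_one
    (2 * Real.logb 2 (N : ℝ) - 2 * Real.logb 2 (Real.logb 2 (N : ℝ)) - 48)
  linarith

end C0l1
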