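import Pool.Agent.W_c0l1_h38.NumH
import Pool.Agent.W_c0lo_h38.InitR

/-! # Lower bounds for the coefficients -/

set_option autoImplicit false

namespace C0l1

open scoped Classical
open C0lo

/-- TASK NumG1. PROOF. Insert `gg`, `T0 = N.choose q / 2 ^ (q.choose 2)`, `q.choose j ≤ q ^ j`
(`Nat.choose_le_pow`), `N.choose (q - j) ≤ N.choose q * (2 q / N) ^ j` (`C0lo.choose_ratio`, file
`W_c0lo_h38/InitR.lean`). All quantities are positive. -/
theorem gg_small {N q : ℕ} (hqN : 2 * q ≤ N) (hq : 3 ≤ q) {j : ℕ} (hj3 : 3 ≤ j) (hj : j < q) :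
    1 ≤ T0 N q * gg N q j * (8 * q * (2 * (q : ℝ) ^ 2 / N) ^ j * 2 ^ (j.choose 2)) := by
  have hN1 : 1 ≤ N := by omega
  have hq0 : (0 : ℝ) < q := by exact_mod_cast (by omega : 0 < q)
  have hN0 : (0 : ℝ) < N := by exact_mod_cast (by omega : 0 < N)
  have hc1 : (0 : ℝ) < (q.choose j : ℝ) := by exact_mod_cast Nat.choose_pos hj.le
  have hc2 : (0 : ℝ) < (N.choose (q - j) : ℝ) := by
    exact_mod_cast Nat.choose_pos (by omega : q - j ≤ N)
  have h1 : (q.choose j : ℝ) ≤ (q : ℝ) ^ j := by exact_mod_cast Nat.choose_le_pow q j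
  have h2 := choose_ratio hqN hN1 hj.le
  have h3 : (q.choose j : ℝ) * (N.choose (q - j) : ℝ) ≤
      (N.choose q : ℝ) * (2 * (q : ℝ) ^ 2 / N) ^ j := by
    calc (q.choose j : ℝ) * (N.choose (q - j) : ℝ)
        ≤ (q : ℝ) ^ j * ((N.choose q : ℝ) * (2 * q / N) ^ j) := by
          exact mul_le_mul h1 h2 hc2.le (by positivity)
      _ = (N.choose q : ℝ) * ((q : ℝ) * (2 * q / N)) ^ j := by rw [mul_pow]; ring
      _ = (N.choose q : ℝ) * (2 * (q : ℝ) ^ 2 / N) ^ j := by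
          congr 2
          ring
  unfold gg
  rw [if_neg (by omega), T0]
  have e : (N.choose q : ℝ) / 2 ^ (q.choose 2) *
      (2 ^ (q.choose 2) / (8 * q * (q.choose j : ℝ) * (N.choose (q - j) : ℝ) * 2 ^ (j.choose 2))) *
      (8 * q * (2 * (q : ℝ) ^ 2 / N) ^ j * 2 ^ (j.choose 2)) =
      ((N.choose q : ℝ) * (2 * (q : ℝ) ^ 2 / N) ^ j) /
        ((q.choose j : ℝ) * (N.choose (q - j) : ℝ)) := by
    generalize (2 * (q : ℝ) ^ 2 / N) ^ j = w
    field_simp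
  rw [e, one_le_div (by positivity)]
  exact h3

/-- TASK NumG2. PROOF. Insert `gg`, `q.choose j = q.choose (q - j) ≤ q ^ (q - j)`,
`N.choose (q - j) ≤ N ^ (q - j)` (`Nat.choose_le_pow`). -/
theorem gg_large {N q : ℕ} (hqN : 2 * q ≤ N) (hq : 3 ≤ q) {j : ℕ} (hj3 : 3 ≤ j) (hj : j < q) :
    2 ^ (q.choose 2) ≤ gg N q j * (8 * q * ((q : ℝ) * N) ^ (q - j) * 2 ^ (j.choose 2)) := by
  have hq0 : (0 : ℝ) < q := by exact_mod_cast (by omega : 0 < q)
  have hN0 : (0 : ℝ) < N := by exact_mod_cast (by omega : 0 < N)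
  have hc1 : (0 : ℝ) < (q.choose j : ℝ) := by exact_mod_cast Nat.choose_pos hj.le
  have hc2 : (0 : ℝ) < (N.choose (q - j) : ℝ) := by
    exact_mod_cast Nat.choose_pos (by omega : q - j ≤ N)
  have h1 : (q.choose j : ℝ) ≤ (q : ℝ) ^ (q - j) := by
    rw [← Nat.choose_symm hj.le]
    exact_mod_cast Nat.choose_le_pow q (q - j)
  have h2 : (N.choose (q - j) : ℝ) ≤ (N : ℝ) ^ (q - j) := by
    exact_mod_cast Nat.choose_le_pow N (q - j)
  have h3 : (q.choose j : ℝ) * (N.choose (q - j) : ℝ) ≤ ((q : ℝ) * N) ^ (q - j) := by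
    rw [mul_pow]
    exact mul_le_mul h1 h2 hc2.le (by positivity)
  unfold gg
  rw [if_neg (by omega)]
  have e : (2 : ℝ) ^ (q.choose 2) /
      (8 * q * (q.choose j : ℝ) * (N.choose (q - j) : ℝ) * 2 ^ (j.choose 2)) *
      (8 * q * ((q : ℝ) * N) ^ (q - j) * 2 ^ (j.choose 2)) =
      2 ^ (q.choose 2) * (((q : ℝ) * N) ^ (q - j) /
        ((q.choose j : ℝ) * (N.choose (q - j) : ℝ))) := by
    generalize ((q : ℝ) * N) ^ (q - j) = w
    field_simp
  rw [e]
  refine le_mul_of_one_le_right (by positivity) ?_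
  rw [one_le_div (by positivity)]
  exact h3

end C0l1
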