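import Pool.Agent.W_c0l1_h38.NumA

/-! # Hypotheses on `N`, `q`, `L = log₂ N` -/

set_option autoImplicit false

namespace C0l1

open scoped Classical
open C0lo

/-- the standing hypotheses, `L = log₂ N` -/
structure Hyp (N q : ℕ) (L : ℝ) : Prop where
  hL : 1000 ≤ L
  hNL : (N : ℝ) = (2 : ℝ) ^ L
  hbig : 2 ^ 20 * L ≤ (2 : ℝ) ^ (L / 100)
  hq2 : (q : ℝ) ≤ 2 * L
  hq1 : 39 / 20 * L ≤ q
  hpow : (2 : ℝ) ^ q ≤ (N : ℝ) ^ 2 / (2 ^ 48 * L ^ 2)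

/-- TASK NumH1. PROOF. `39/20 * 1000 ≤ q`. -/
theorem Hyp.q_ge {N q : ℕ} {L : ℝ} (h : Hyp N q L) : 1000 ≤ q := by
  have h1 := h.hq1
  have h2 := h.hL
  have h3 : (1000 : ℝ) ≤ q := by linarith
  exact_mod_cast h3

/-- TASK NumH2. PROOF. `2 q ≤ 4 L ≤ 2 ^ (L / 100) ≤ 2 ^ L = N`. -/
theorem Hyp.qN {N q : ℕ} {L : ℝ} (h : Hyp N q L) : 2 * q ≤ N := by
  have h1 := h.hq2
  have h2 := h.hL
  have h3 := h.hbig
  have h4 : (2 : ℝ) ^ (L / 100) ≤ (2 : ℝ) ^ L :=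
    Real.rpow_le_rpow_of_exponent_le (by norm_num) (by linarith)
  have h5 : ((2 * q : ℕ) : ℝ) ≤ (N : ℝ) := by
    rw [h.hNL]
    push_cast
    linarith
  exact_mod_cast h5

/-- TASK NumH3. PROOF. `(4/3)^2 ≤ 2`, so `(4/3)^k ≤ 2 ^ (k / 2)` (real exponent); monotone. -/
theorem pow_kk_le {k : ℕ} {u : ℝ} (h : (k : ℝ) ≤ 2 * u) : ((4 : ℝ) / 3) ^ k ≤ 2 ^ u := by
  have h1 : ((4 : ℝ) / 3) ^ k = (((4 : ℝ) / 3) ^ (2 : ℝ)) ^ ((k : ℝ) / 2) := by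
    rw [← Real.rpow_mul (by norm_num), ← Real.rpow_natCast]
    congr 1
    ring
  have h2 : ((4 : ℝ) / 3) ^ (2 : ℝ) ≤ 2 := by
    rw [Real.rpow_two]
    norm_num
  rw [h1]
  calc (((4 : ℝ) / 3) ^ (2 : ℝ)) ^ ((k : ℝ) / 2) ≤ 2 ^ ((k : ℝ) / 2) :=
        Real.rpow_le_rpow (by positivity) h2 (by positivity)
    _ ≤ 2 ^ u := Real.rpow_le_rpow_of_exponent_le (by norm_num) (by linarith)

/-- the floor in `kk` removed -/
theorem NumH_kk_le {q : ℕ} {b : ℕ} (hb : 3 ≤ b) (hbq : b < q) :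
    (kk q b : ℝ) ≤ 8 * ((q.choose 2 : ℝ) - (b.choose 2 : ℝ)) * (b * ((q : ℝ) - b)) /
      (2 ^ 16 * (q : ℝ) ^ 2) := by
  have h1 : (0 : ℝ) < RR q b := RR_pos (by omega) hbq
  have h2 : (b.choose 2 : ℝ) ≤ (q.choose 2 : ℝ) := by
    exact_mod_cast Nat.choose_le_choose 2 hbq.le
  have h3 : (0 : ℝ) ≤ 8 * ((q.choose 2 : ℝ) - (b.choose 2 : ℝ)) / RR q b :=
    div_nonneg (by linarith) h1.le
  have h4 := Nat.floor_le h3
  have h5 : 8 * ((q.choose 2 : ℝ) - (b.choose 2 : ℝ)) / RR q b =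
      8 * ((q.choose 2 : ℝ) - (b.choose 2 : ℝ)) * (b * ((q : ℝ) - b)) /
      (2 ^ 16 * (q : ℝ) ^ 2) := by
    unfold RR
    rw [div_div_eq_mul_div]
  unfold kk
  rw [← h5]
  exact h4

/-- TASK NumH4. PROOF. `kk ≤ 8 (C(q,2) - C(b,2)) b (q-b) / (2^16 q^2)` (`Nat.floor_le`; the argument
is `≥ 0`), and `C(q,2) ≤ q^2/2` (`Nat.cast_choose_two`), `q - b ≤ q`, `q ≤ 2 L`:
`kk ≤ b q / 2^14 ≤ b L / 8192 ≤ 2 (b L / 100)`. -/
theorem kk_small {N q : ℕ} {L : ℝ} (h : Hyp N q L) {b : ℕ} (hb : 3 ≤ b) (hbq : b < q) :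
    (kk q b : ℝ) ≤ 2 * ((b : ℝ) * (L / 100)) := by
  have h1 := h.hq2
  have h2 := h.hL
  have h3 : (3 : ℝ) ≤ b := by exact_mod_cast hb
  have h4 : (b : ℝ) < q := by exact_mod_cast hbq
  have h5 : (0 : ℝ) < q := by linarith
  have h6 := NumH_kk_le hb hbq
  have h7 : 8 * ((q : ℝ) ^ 2 / 2) * (b * ((q : ℝ) - b)) / (2 ^ 16 * (q : ℝ) ^ 2) ≤
      b * q / 2 ^ 14 := by
    rw [div_le_div_iff₀ (by positivity) (by positivity)]
    have h8 : (b : ℝ) * ((q : ℝ) - b) ≤ b * q := by nlinarith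
    have h9 : (0 : ℝ) ≤ (q : ℝ) ^ 2 := by positivity
    nlinarith [mul_le_mul_of_nonneg_left h8 h9]
  have h10 : 8 * ((q.choose 2 : ℝ) - (b.choose 2 : ℝ)) * (b * ((q : ℝ) - b)) /
      (2 ^ 16 * (q : ℝ) ^ 2) ≤
      8 * ((q : ℝ) ^ 2 / 2) * (b * ((q : ℝ) - b)) / (2 ^ 16 * (q : ℝ) ^ 2) := by
    refine div_le_div_of_nonneg_right ?_ (by positivity)
    refine mul_le_mul_of_nonneg_right ?_ (mul_nonneg (by linarith) (by linarith))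
    rw [Nat.cast_choose_two]
    have h11 : (0 : ℝ) ≤ (b.choose 2 : ℝ) := by positivity
    nlinarith
  have h12 : (b : ℝ) * q ≤ b * (2 * L) := mul_le_mul_of_nonneg_left h1 (by linarith)
  have h13 : (0 : ℝ) ≤ b * L := mul_nonneg (by linarith) (by linarith)
  have h14 : (b : ℝ) * q / 2 ^ 14 ≤ 2 * ((b : ℝ) * (L / 100)) := by
    rw [div_le_iff₀ (by positivity)]
    nlinarith
  linarith

/-- TASK NumH5. PROOF. `C(q,2) - C(b,2) = (q-b)(q+b-1)/2 ≤ (q-b) q`, so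
`kk ≤ 8 (q-b) q b (q-b) / (2^16 q^2) ≤ (q-b)^2 / 2^13 ≤ (q-b) q / 2^13 ≤ (q-b) L / 2^12`. -/
theorem kk_large {N q : ℕ} {L : ℝ} (h : Hyp N q L) {b : ℕ} (hb : 3 ≤ b) (hbq : b < q) :
    (kk q b : ℝ) ≤ 2 * (((q : ℝ) - b) * (L / 100)) := by
  have h1 := h.hq2
  have h2 := h.hL
  have h3 : (3 : ℝ) ≤ b := by exact_mod_cast hb
  have h4 : (b : ℝ) < q := by exact_mod_cast hbq
  have h5 : (0 : ℝ) < q := by linarith
  have hd : (0 : ℝ) < (q : ℝ) - b := by linarith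
  have h6 := NumH_kk_le hb hbq
  have h7 : (q.choose 2 : ℝ) - (b.choose 2 : ℝ) ≤ ((q : ℝ) - b) * q := by
    rw [Nat.cast_choose_two, Nat.cast_choose_two]
    nlinarith
  have h10 : 8 * ((q.choose 2 : ℝ) - (b.choose 2 : ℝ)) * (b * ((q : ℝ) - b)) /
      (2 ^ 16 * (q : ℝ) ^ 2) ≤
      8 * (((q : ℝ) - b) * q) * (q * ((q : ℝ) - b)) / (2 ^ 16 * (q : ℝ) ^ 2) := by
    refine div_le_div_of_nonneg_right ?_ (by positivity)
    have h11 : 8 * ((q.choose 2 : ℝ) - (b.choose 2 : ℝ)) ≤ 8 * (((q : ℝ) - b) * q) := by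
      linarith
    have h12 : (b : ℝ) * ((q : ℝ) - b) ≤ q * ((q : ℝ) - b) :=
      mul_le_mul_of_nonneg_right h4.le hd.le
    exact mul_le_mul h11 h12 (mul_nonneg (by linarith) hd.le)
      (mul_nonneg (by norm_num) (mul_nonneg hd.le h5.le))
  have h13 : 8 * (((q : ℝ) - b) * q) * (q * ((q : ℝ) - b)) / (2 ^ 16 * (q : ℝ) ^ 2) =
      ((q : ℝ) - b) * ((q : ℝ) - b) / 2 ^ 13 := by
    field_simp
    norm_num
  have h14 : ((q : ℝ) - b) * ((q : ℝ) - b) ≤ ((q : ℝ) - b) * (2 * L) :=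
    mul_le_mul_of_nonneg_left (by linarith) hd.le
  have h15 : (0 : ℝ) ≤ ((q : ℝ) - b) * L := mul_nonneg hd.le (by linarith)
  have h16 : ((q : ℝ) - b) * ((q : ℝ) - b) / 2 ^ 13 ≤ 2 * (((q : ℝ) - b) * (L / 100)) := by
    rw [div_le_iff₀ (by positivity)]
    nlinarith
  linarith

/-- TASK NumH6. PROOF. `(N / (2 q)) ^ q ≤ N.choose q` (this is proved inside `C0lo.T0_ge`, file
`W_c0lo_h38/NumA.lean`). From `hpow` (take square roots as in `C0lo.two_pow_le`):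
`2 ^ (q.choose 2) ≤ (N / (2 ^ 24 * L)) ^ q`. So `T0 ≥ ((N / (2 q)) / (N / (2 ^ 24 L))) ^ q =
(2 ^ 24 L / (2 q)) ^ q ≥ (2 ^ 22) ^ q`, as `q ≤ 2 L`. -/
theorem T0_ge {N q : ℕ} {L : ℝ} (h : Hyp N q L) : 2 ^ (22 * q) ≤ T0 N q := by
  have hq := h.q_ge
  have hqN := h.qN
  have hL : (0 : ℝ) < L := by linarith [h.hL]
  have hN : (0 : ℝ) < N := by
    have : 0 < N := by omega
    exact_mod_cast this
  have hq0 : (0 : ℝ) < q := by
    have : 0 < q := by omega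
    exact_mod_cast this
  have h1 : (2 : ℝ) ^ (q.choose 2) ≤ (N / (2 ^ 24 * L)) ^ q := by
    have h1 : q.choose 2 * 2 ≤ q * q := by
      rw [Nat.choose_two_right, Nat.div_mul_cancel (Nat.even_mul_pred_self q).two_dvd]
      exact Nat.mul_le_mul_left q (by omega)
    have h2 : ((2 : ℝ) ^ (q.choose 2)) ^ 2 ≤ ((N / (2 ^ 24 * L)) ^ q) ^ 2 := by
      calc ((2 : ℝ) ^ (q.choose 2)) ^ 2 = 2 ^ (q.choose 2 * 2) := by rw [pow_mul]
        _ ≤ 2 ^ (q * q) := pow_le_pow_right₀ (by norm_num) h1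
        _ = (2 ^ q) ^ q := by rw [pow_mul]
        _ ≤ ((N : ℝ) ^ 2 / (2 ^ 48 * L ^ 2)) ^ q := pow_le_pow_left₀ (by positivity) h.hpow q
        _ = ((N / (2 ^ 24 * L)) ^ q) ^ 2 := by
            rw [← pow_mul, mul_comm q 2, pow_mul]
            congr 1
            rw [div_pow, mul_pow]
            norm_num
    exact le_of_sq_le_sq h2 (by positivity)
  have h2 : ((N : ℝ) / (2 * q)) ^ q ≤ (N.choose q : ℝ) := by
    have h3 : (((N + 1 - q : ℕ) : ℝ)) ^ q / (q.factorial : ℝ) ≤ (N.choose q : ℝ) :=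
      Nat.pow_le_choose q N
    have h4 : (N : ℝ) / 2 ≤ ((N + 1 - q : ℕ) : ℝ) := by
      have h5 : N ≤ 2 * (N + 1 - q) := by omega
      have h6 : (N : ℝ) ≤ 2 * ((N + 1 - q : ℕ) : ℝ) := by exact_mod_cast h5
      linarith
    have h5 : (q.factorial : ℝ) ≤ (q : ℝ) ^ q := by exact_mod_cast Nat.factorial_le_pow q
    have h6 : (0 : ℝ) < q.factorial := by exact_mod_cast q.factorial_pos
    calc ((N : ℝ) / (2 * q)) ^ q = ((N : ℝ) / 2) ^ q / (q : ℝ) ^ q := by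
          rw [← div_pow, div_div]
      _ ≤ ((N : ℝ) / 2) ^ q / q.factorial :=
          div_le_div_of_nonneg_left (by positivity) h6 h5
      _ ≤ (((N + 1 - q : ℕ) : ℝ)) ^ q / (q.factorial : ℝ) :=
          div_le_div_of_nonneg_right (pow_le_pow_left₀ (by positivity) h4 q) h6.le
      _ ≤ _ := h3
  have h7 : (2 ^ 24 * L / (2 * q)) ^ q =
      ((N : ℝ) / (2 * q)) ^ q / (N / (2 ^ 24 * L)) ^ q := by
    rw [← div_pow]
    congr 1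
    field_simp
  have h8 : (2 : ℝ) ^ (22 * q) ≤ (2 ^ 24 * L / (2 * q)) ^ q := by
    rw [pow_mul]
    refine pow_le_pow_left₀ (by positivity) ?_ q
    rw [le_div_iff₀ (by positivity)]
    have := h.hq2
    nlinarith
  refine h8.trans ?_
  unfold T0
  rw [h7]
  exact div_le_div₀ (by positivity) h2 (by positivity) h1

/-- TASK NumH7. PROOF. `8 q ≤ 16 L ≤ 2 ^ (L / 100)`, `N ^ 2 √N = 2 ^ (5/2 L)`, and
`2 ^ (19 q) * 2 ^ (L / 100) * 4 * 2 ^ (5 / 2 L) ≤ 2 ^ (22 q)` because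
`3 q ≥ 117/20 L ≥ 2 + (5/2 + 1/100) L`. -/
theorem th_ge {N q : ℕ} {L : ℝ} (h : Hyp N q L) : 32 * (q : ℝ) * 2 ^ (19 * q) ≤ th N q := by
  have hq2 := h.hq2
  have hq1 := h.hq1
  have hL := h.hL
  have hbig := h.hbig
  have hN : (0 : ℝ) < N := by
    rw [h.hNL]
    positivity
  have h1 : (N : ℝ) ^ 2 * √N = (2 : ℝ) ^ (5 / 2 * L) := by
    rw [Real.sqrt_eq_rpow, ← Real.rpow_natCast, ← Real.rpow_add hN, h.hNL,
      ← Real.rpow_mul (by norm_num)]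
    congr 1
    push_cast
    ring
  have h2 : (32 : ℝ) * q ≤ 2 ^ (2 + L / 100) := by
    rw [Real.rpow_add (by norm_num)]
    have : (2 : ℝ) ^ (2 : ℝ) = 4 := by
      rw [Real.rpow_two]
      norm_num
    rw [this]
    nlinarith
  have h3 : (2 : ℝ) ^ (19 * q) = (2 : ℝ) ^ ((19 * q : ℝ)) := by
    rw [← Real.rpow_natCast]
    push_cast
    rfl
  have h4 : (2 : ℝ) ^ (22 * q) = (2 : ℝ) ^ ((22 * q : ℝ)) := by
    rw [← Real.rpow_natCast]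
    push_cast
    rfl
  have h5 := T0_ge h
  unfold th
  rw [h1, le_div_iff₀ (by positivity)]
  refine le_trans ?_ h5
  rw [h3, h4]
  calc 32 * (q : ℝ) * (2 : ℝ) ^ ((19 * q : ℝ)) * (2 : ℝ) ^ (5 / 2 * L)
      ≤ 2 ^ (2 + L / 100) * (2 : ℝ) ^ ((19 * q : ℝ)) * (2 : ℝ) ^ (5 / 2 * L) := by
        gcongr
    _ = 2 ^ (2 + L / 100 + 19 * q + 5 / 2 * L) := by
        rw [← Real.rpow_add (by norm_num), ← Real.rpow_add (by norm_num)]
    _ ≤ 2 ^ ((22 * q : ℝ)) :=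
        Real.rpow_le_rpow_of_exponent_le (by norm_num) (by linarith)

end C0l1
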