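import Pool.Agent.W_c0l1_h38.NumG

/-! # First condition, small sets -/

set_option autoImplicit false

namespace C0l1

open scoped Classical
open C0lo

theorem NumS_pow {L : ℝ} (k : ℕ) : (2 : ℝ) ^ ((k : ℝ) * (L / 100)) = ((2 : ℝ) ^ (L / 100)) ^ k := by
  rw [mul_comm, Real.rpow_mul (by norm_num), Real.rpow_natCast]

theorem NumS_N {N q : ℕ} {L : ℝ} (h : Hyp N q L) : (N : ℝ) = ((2 : ℝ) ^ (L / 100)) ^ 100 := by
  rw [h.hNL, ← NumS_pow]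
  congr 1
  push_cast
  ring

theorem NumS_sqrt {N q : ℕ} {L : ℝ} (h : Hyp N q L) : √(N : ℝ) = ((2 : ℝ) ^ (L / 100)) ^ 50 := by
  have h1 : (0 : ℝ) ≤ ((2 : ℝ) ^ (L / 100)) ^ 50 := by positivity
  rw [NumS_N h, show ((2 : ℝ) ^ (L / 100)) ^ 100 = (((2 : ℝ) ^ (L / 100)) ^ 50) ^ 2 by ring,
    Real.sqrt_sq h1]

theorem NumS_one {N q : ℕ} {L : ℝ} (h : Hyp N q L) : 1 ≤ (2 : ℝ) ^ (L / 100) := by
  have h1 := h.hL
  have h2 := h.hbig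
  linarith

theorem NumS_exp {L : ℝ} (c j : ℕ) : (2 : ℝ) ^ (-((c : ℝ) * (j : ℝ)) * (L / 100)) =
    (((2 : ℝ) ^ (L / 100)) ^ (c * j))⁻¹ := by
  rw [neg_mul, Real.rpow_neg (by norm_num), ← NumS_pow]
  push_cast
  rfl

theorem NumS_choose (j : ℕ) :
    (2 : ℝ) ^ (j.choose 2) = ((2 : ℝ) ^ (((j : ℝ) - 1) / 2)) ^ j := by
  rw [← Real.rpow_natCast, ← Real.rpow_natCast, ← Real.rpow_mul (by norm_num),
    Nat.cast_choose_two]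
  congr 1
  ring

theorem NumS_base {N q : ℕ} {L : ℝ} (h : Hyp N q L) (c j : ℕ)
    (hc : 2 * (q : ℝ) ^ 2 * (2 : ℝ) ^ (((j : ℝ) - 1) / 2) * ((2 : ℝ) ^ (L / 100)) ^ c ≤
      ((2 : ℝ) ^ (L / 100)) ^ 100) :
    (2 * (q : ℝ) ^ 2 / N) ^ j * 2 ^ (j.choose 2) ≤ (((2 : ℝ) ^ (L / 100)) ^ (c * j))⁻¹ := by
  have hw : (0 : ℝ) < (2 : ℝ) ^ (L / 100) := by positivity
  have h1 : 2 * (q : ℝ) ^ 2 / N * (2 : ℝ) ^ (((j : ℝ) - 1) / 2) ≤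
      (((2 : ℝ) ^ (L / 100)) ^ c)⁻¹ := by
    rw [← NumS_N h] at hc
    have hN : (0 : ℝ) < N := by
      rw [NumS_N h]
      positivity
    rw [div_mul_eq_mul_div, div_le_iff₀ hN, inv_mul_eq_div, le_div_iff₀ (by positivity)]
    exact hc
  rw [NumS_choose, ← mul_pow, pow_mul, ← inv_pow]
  exact pow_le_pow_left₀ (by positivity) h1 j

theorem NumS_sq {N q : ℕ} {L : ℝ} (h : Hyp N q L) :
    2 * (q : ℝ) ^ 2 ≤ ((2 : ℝ) ^ (L / 100)) ^ 2 := by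
  have h1 := h.hL
  have h2 := h.hbig
  have h3 := h.hq2
  have h4 : (0 : ℝ) ≤ q := Nat.cast_nonneg _
  have h5 : 2 * (q : ℝ) ≤ (2 : ℝ) ^ (L / 100) := by linarith
  nlinarith

/-- TASK NumS1. PROOF. Write everything as a power of `2` with exponent a multiple of `L / 100`.
`2 q ^ 2 ≤ 8 L ^ 2 ≤ (2 ^ 20 L) ^ 2 ≤ 2 ^ (2 L / 100)`, `2 ^ (j.choose 2) = (2 ^ ((j-1)/2)) ^ j`
(`j.choose 2 = j (j-1) / 2`). If `11 ≤ j`: `(j - 1)/2 ≤ 3 q / 16 ≤ 3 L / 8`, so the base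
`(2 q ^ 2 / N) 2 ^ ((j-1)/2) ≤ 2 ^ (L (2/100 + 3/8 - 1)) ≤ 2 ^ (-60 L / 100)`. If `j ≤ 10`:
`(j-1)/2 ≤ 9/2 ≤ L / 100`, base `≤ 2 ^ (-97 L / 100) `. -/
theorem base_small {N q : ℕ} {L : ℝ} (h : Hyp N q L) {j : ℕ} (hj3 : 3 ≤ j) (hj : 8 * j ≤ 3 * q) :
    (2 * (q : ℝ) ^ 2 / N) ^ j * 2 ^ (j.choose 2) ≤
      (2 : ℝ) ^ (-((if 11 ≤ j then 60 else 97) * (j : ℝ)) * (L / 100)) := by
  have hw := NumS_one h
  have hsq := NumS_sq h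
  have hL := h.hL
  have hq2 := h.hq2
  by_cases h11 : 11 ≤ j
  · have h1 := NumS_exp (L := L) 60 j
    push_cast at h1
    rw [if_pos h11, h1]
    refine NumS_base h 60 j ?_
    have h2 : (2 : ℝ) ^ (((j : ℝ) - 1) / 2) ≤ ((2 : ℝ) ^ (L / 100)) ^ 38 := by
      rw [← NumS_pow]
      refine Real.rpow_le_rpow_of_exponent_le (by norm_num) ?_
      have h3 : (8 : ℝ) * j ≤ 3 * q := by exact_mod_cast hj
      push_cast
      linarith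
    calc 2 * (q : ℝ) ^ 2 * (2 : ℝ) ^ (((j : ℝ) - 1) / 2) * ((2 : ℝ) ^ (L / 100)) ^ 60
        ≤ ((2 : ℝ) ^ (L / 100)) ^ 2 * ((2 : ℝ) ^ (L / 100)) ^ 38 * ((2 : ℝ) ^ (L / 100)) ^ 60 := by
          gcongr
      _ = ((2 : ℝ) ^ (L / 100)) ^ 100 := by ring
  · have h1 := NumS_exp (L := L) 97 j
    push_cast at h1
    rw [if_neg h11, h1]
    refine NumS_base h 97 j ?_
    have h2 : (2 : ℝ) ^ (((j : ℝ) - 1) / 2) ≤ (2 : ℝ) ^ (L / 100) := by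
      refine Real.rpow_le_rpow_of_exponent_le (by norm_num) ?_
      have h3 : (j : ℝ) ≤ 10 := by exact_mod_cast (show j ≤ 10 by omega)
      linarith
    calc 2 * (q : ℝ) ^ 2 * (2 : ℝ) ^ (((j : ℝ) - 1) / 2) * ((2 : ℝ) ^ (L / 100)) ^ 97
        ≤ ((2 : ℝ) ^ (L / 100)) ^ 2 * (2 : ℝ) ^ (L / 100) * ((2 : ℝ) ^ (L / 100)) ^ 97 := by
          gcongr
      _ = ((2 : ℝ) ^ (L / 100)) ^ 100 := by ring

/-- TASK NumS2. PROOF. By `gg_small` and `th = T0 / (N ^ 2 √N)` it suffices that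
`4 (4/3)^kk PP (8 q) [(2 q ^ 2 / N) ^ j 2 ^ (j.choose 2)] N ^ 2 √N ≤ 1`. Here
`(4/3)^kk ≤ 2 ^ (b L / 100)` (`kk_small`, `pow_kk_le` with `u = b (L/100)`), `PP ≤ (2 ^ 17 q) ^ (b-3) ≤
2 ^ ((b-3) L / 100)` (`PP_le`, `2 ^ 17 q ≤ 2 ^ 18 L ≤ 2 ^ (L/100)`), `32 q ≤ 64 L ≤ 2 ^ (L/100)`,
`N ^ 2 √N = 2 ^ (250 L / 100)` and `base_small`. The exponent (times `100 / L`) is at most
`b + (b - 3) + 1 + 250 - (60 or 97) j ≤ 2 j + 248 - (60 or 97) j`, which is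
`≤ 248 - 58 * 11 < 0` if `11 ≤ j` and `≤ 248 - 95 * 3 < 0` if `3 ≤ j ≤ 10`. -/
theorem case_small {N q : ℕ} {L : ℝ} (h : Hyp N q L) {b j : ℕ} (hb : 3 ≤ b) (hbj : b ≤ j)
    (hj : 8 * j ≤ 3 * q) :
    4 * (4 / 3) ^ kk q b * PP q b ≤ th N q * gg N q j := by
  have hL := h.hL
  have hbig := h.hbig
  have hq2 := h.hq2
  have hqg := h.q_ge
  have hw := NumS_one h
  have hw0 : (0 : ℝ) < (2 : ℝ) ^ (L / 100) := by positivity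
  have hjq : j < q := by omega
  have hq0 : (0 : ℝ) ≤ q := Nat.cast_nonneg _
  -- the exponent c
  obtain ⟨c, hc, hcj⟩ : ∃ c : ℕ, (2 * (q : ℝ) ^ 2 / N) ^ j * 2 ^ (j.choose 2) ≤
      (((2 : ℝ) ^ (L / 100)) ^ (c * j))⁻¹ ∧ 2 * j + 248 ≤ c * j := by
    have h1 := base_small h (by omega : 3 ≤ j) hj
    by_cases h11 : 11 ≤ j
    · have h2 := NumS_exp (L := L) 60 j
      push_cast at h2
      rw [if_pos h11, h2] at h1
      exact ⟨60, h1, by omega⟩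
    · have h2 := NumS_exp (L := L) 97 j
      push_cast at h2
      rw [if_neg h11, h2] at h1
      exact ⟨97, h1, by omega⟩
  have hg := gg_small h.qN (by omega : 3 ≤ q) (by omega : 3 ≤ j) hjq
  have hT0 : 0 ≤ T0 N q := by
    unfold T0
    positivity
  have hTg : 0 ≤ T0 N q * gg N q j := mul_nonneg hT0 (gg_nonneg _ _ _)
  have hg2 : 1 ≤ T0 N q * gg N q j * (8 * q * (((2 : ℝ) ^ (L / 100)) ^ (c * j))⁻¹) := by
    refine hg.trans (mul_le_mul_of_nonneg_left ?_ hTg)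
    rw [mul_assoc]
    exact mul_le_mul_of_nonneg_left hc (by positivity)
  have hk : ((4 : ℝ) / 3) ^ kk q b ≤ ((2 : ℝ) ^ (L / 100)) ^ b := by
    rw [← NumS_pow]
    exact pow_kk_le (kk_small h hb (by omega))
  have hP : PP q b ≤ ((2 : ℝ) ^ (L / 100)) ^ (b - 3) := by
    refine (PP_le (by omega)).trans (pow_le_pow_left₀ (by positivity) ?_ _)
    linarith
  have hP0 : 0 ≤ PP q b := (PP_pos (by omega)).le
  have hNN : (N : ℝ) ^ 2 * √(N : ℝ) = ((2 : ℝ) ^ (L / 100)) ^ 250 := by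
    rw [NumS_sqrt h, NumS_N h]
    ring
  have hX : 4 * (4 / 3) ^ kk q b * PP q b * ((2 : ℝ) ^ (L / 100)) ^ 250 *
      (8 * q * (((2 : ℝ) ^ (L / 100)) ^ (c * j))⁻¹) ≤ 1 := by
    have h32 : 4 * (8 * (q : ℝ)) ≤ (2 : ℝ) ^ (L / 100) := by linarith
    calc 4 * (4 / 3) ^ kk q b * PP q b * ((2 : ℝ) ^ (L / 100)) ^ 250 *
          (8 * q * (((2 : ℝ) ^ (L / 100)) ^ (c * j))⁻¹)
        = 4 * (8 * (q : ℝ)) * (4 / 3) ^ kk q b * PP q b * ((2 : ℝ) ^ (L / 100)) ^ 250 *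
          (((2 : ℝ) ^ (L / 100)) ^ (c * j))⁻¹ := by ring
      _ ≤ (2 : ℝ) ^ (L / 100) * ((2 : ℝ) ^ (L / 100)) ^ b * ((2 : ℝ) ^ (L / 100)) ^ (b - 3) *
          ((2 : ℝ) ^ (L / 100)) ^ 250 * (((2 : ℝ) ^ (L / 100)) ^ (c * j))⁻¹ := by
          gcongr
      _ = ((2 : ℝ) ^ (L / 100)) ^ (1 + b + (b - 3) + 250) *
          (((2 : ℝ) ^ (L / 100)) ^ (c * j))⁻¹ := by
          rw [pow_add, pow_add, pow_add, pow_one]
      _ ≤ ((2 : ℝ) ^ (L / 100)) ^ (c * j) * (((2 : ℝ) ^ (L / 100)) ^ (c * j))⁻¹ := by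
          gcongr
          omega
      _ = 1 := mul_inv_cancel₀ (by positivity)
  have hX0 : 0 ≤ 4 * (4 / 3) ^ kk q b * PP q b * ((2 : ℝ) ^ (L / 100)) ^ 250 := by positivity
  unfold th
  rw [div_mul_eq_mul_div, hNN, le_div_iff₀ (by positivity)]
  calc 4 * (4 / 3) ^ kk q b * PP q b * ((2 : ℝ) ^ (L / 100)) ^ 250
      = 4 * (4 / 3) ^ kk q b * PP q b * ((2 : ℝ) ^ (L / 100)) ^ 250 * 1 := by ring
    _ ≤ 4 * (4 / 3) ^ kk q b * PP q b * ((2 : ℝ) ^ (L / 100)) ^ 250 *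
        (T0 N q * gg N q j * (8 * q * (((2 : ℝ) ^ (L / 100)) ^ (c * j))⁻¹)) :=
        mul_le_mul_of_nonneg_left hg2 hX0
    _ = T0 N q * gg N q j * (4 * (4 / 3) ^ kk q b * PP q b * ((2 : ℝ) ^ (L / 100)) ^ 250 *
        (8 * q * (((2 : ℝ) ^ (L / 100)) ^ (c * j))⁻¹)) := by ring
    _ ≤ T0 N q * gg N q j * 1 := mul_le_mul_of_nonneg_left hX hTg
    _ = T0 N q * gg N q j := by ring

end C0l1
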