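import Pool.Agent.W_c0l1_h38.Defs
import Pool.Agent.W_c0lo_h38.Init

/-! # The parameters -/

set_option autoImplicit false

namespace C0l1

open scoped Classical
open C0lo

/-- the coefficients of the pairs -/
noncomputable def gg (N q j : ℕ) : ℝ :=
  if j < 3 then 0 else
    2 ^ (q.choose 2) / (8 * q * (q.choose j : ℝ) * (N.choose (q - j) : ℝ) * 2 ^ (j.choose 2))

/-- the thresholds -/
noncomputable def RR (q j : ℕ) : ℝ := 2 ^ 16 * (q : ℝ) ^ 2 / ((j : ℝ) * ((q : ℝ) - j))

/-- the products of the thresholds -/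
noncomputable def PP (q b : ℕ) : ℝ := ∏ j ∈ Finset.Ico 3 b, RR q j

/-- the allowed number of crossing links -/
noncomputable def kk (q b : ℕ) : ℕ :=
  ⌊8 * ((q.choose 2 : ℝ) - (b.choose 2 : ℝ)) / RR q b⌋₊

/-- the bound for the local masses -/
noncomputable def th (N q : ℕ) : ℝ := T0 N q / ((N : ℝ) ^ 2 * √N)

/-- the numerical conditions -/
structure Cond (N q : ℕ) : Prop where
  hq : 3 ≤ q
  hqN : 2 * q ≤ N
  hN : 401 ≤ N
  /-- small and medium intersections -/
  h1 : ∀ b, 3 ≤ b → b < q → ∀ j, b ≤ j → j < b + ((q - b) / 8 + 1) →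
    4 * (4 / 3) ^ kk q b * PP q b ≤ th N q * gg N q j
  /-- the last member of the chain -/
  h2 : PP q q ≤ th N q

theorem gg_nonneg (N q j : ℕ) : 0 ≤ gg N q j := by
  unfold gg
  split_ifs
  · exact le_rfl
  · positivity

theorem RR_pos {q j : ℕ} (h1 : 1 ≤ j) (h2 : j < q) : 0 < RR q j := by
  have h3 : (0 : ℝ) < j := by exact_mod_cast h1
  have h4 : (j : ℝ) < q := by exact_mod_cast h2
  have h5 : (0 : ℝ) < (q : ℝ) - j := by linarith
  have h6 : (0 : ℝ) < q := by linarith
  unfold RR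
  positivity

theorem PP_pos {q b : ℕ} (h : b ≤ q) : 0 < PP q b := by
  unfold PP
  refine Finset.prod_pos fun j hj => ?_
  rw [Finset.mem_Ico] at hj
  exact RR_pos (by omega) (by omega)

theorem PP_mul {q b m : ℕ} (h3 : 3 ≤ b) (h : b + m ≤ q) :
    PP q (b + m) = PP q b * ∏ j ∈ Finset.Ico b (b + m), RR q j := by
  unfold PP
  exact (Finset.prod_Ico_consecutive _ h3 (by omega)).symm

theorem T0_pos {N q : ℕ} (h : Cond N q) : 0 < T0 N q := by
  unfold T0
  have h1 := h.hqN
  have h2 : 0 < N.choose q := Nat.choose_pos (by omega)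
  positivity

theorem th_pos {N q : ℕ} (h : Cond N q) : 0 < th N q := by
  have h1 := T0_pos h
  have h2 := h.hN
  have h3 : (0 : ℝ) < N := by exact_mod_cast (show 0 < N by omega)
  unfold th
  positivity

end C0l1
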