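import Pool.Agent.W_c0l1_h38.Stab
import Pool.Agent.W_c0lo_h38.State

/-! # The positions of a play, with links -/

set_option autoImplicit false

namespace C0l1

open scoped Classical
open C0lo

variable {N : ℕ}

/-! ### Forcer's game: the links are the turns of Avoider -/

/-- the links after `n` moves in the game of Forcer -/
noncomputable def DF (π : ℕ → Sym2 (Fin N)) (n : ℕ) : Finset (Sym2 (Fin N) × Sym2 (Fin N)) :=
  ((Finset.range n).filter (fun i => i % 4 = 0 ∧ i + 1 < n)).image (fun i => (π i, π (i + 1)))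

theorem mem_DF {π : ℕ → Sym2 (Fin N)} {n : ℕ} {l : Sym2 (Fin N) × Sym2 (Fin N)} :
    l ∈ DF π n ↔ ∃ i, i + 1 < n ∧ i % 4 = 0 ∧ (π i, π (i + 1)) = l := by
  unfold DF
  rw [Finset.mem_image]
  constructor
  · rintro ⟨i, h1, h2⟩
    rw [Finset.mem_filter, Finset.mem_range] at h1
    exact ⟨i, h1.2.2, h1.2.1, h2⟩
  · rintro ⟨i, h1, h2, h3⟩
    exact ⟨i, Finset.mem_filter.2 ⟨Finset.mem_range.2 (by omega), h2, h1⟩, h3⟩

/-- `DF` after one kill -/
theorem DF_kill {π : ℕ → Sym2 (Fin N)} {n : ℕ} (hn : n % 4 ≠ 1) : DF π (n + 1) = DF π n := by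
  ext l
  rw [mem_DF, mem_DF]
  constructor
  · rintro ⟨i, h1, h2, h3⟩
    exact ⟨i, by omega, h2, h3⟩
  · rintro ⟨i, h1, h2, h3⟩
    exact ⟨i, by omega, h2, h3⟩

/-- `DF` after a full turn of Avoider -/
theorem DF_claim {π : ℕ → Sym2 (Fin N)} {n : ℕ} (hn : n % 4 = 0) :
    DF π (n + 2) = insert (π n, π (n + 1)) (DF π n) := by
  ext l
  rw [mem_DF, Finset.mem_insert, mem_DF]
  constructor
  · rintro ⟨i, h1, h2, h3⟩
    by_cases h : i = n
    · left
      rw [← h3, h]
    · exact Or.inr ⟨i, by omega, h2, h3⟩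
  · rintro (h | ⟨i, h1, h2, h3⟩)
    · exact ⟨n, by omega, hn, h.symm⟩
    · exact ⟨i, by omega, h2, h3⟩

theorem DF_congr {π π' : ℕ → Sym2 (Fin N)} {n : ℕ} (h : ∀ i < n, π i = π' i) :
    DF π n = DF π' n := by
  ext l
  rw [mem_DF, mem_DF]
  constructor
  · rintro ⟨i, h1, h2, h3⟩
    refine ⟨i, h1, h2, ?_⟩
    rw [← h i (by omega), ← h (i + 1) h1]
    exact h3
  · rintro ⟨i, h1, h2, h3⟩
    refine ⟨i, h1, h2, ?_⟩
    rw [h i (by omega), h (i + 1) h1]
    exact h3

theorem DF_zero (π : ℕ → Sym2 (Fin N)) : DF π 0 = ∅ := by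
  unfold DF
  rw [Finset.range_zero, Finset.filter_empty, Finset.image_empty]

/-- the links of `DF` have different first edges -/
theorem DF_fun {π : ℕ → Sym2 (Fin N)} {n M : ℕ} (hn : n ≤ M)
    (h2 : ∀ i < M, ∀ j < M, π i = π j → i = j) : Fun (DF π n) := by
  intro l hl l' hl' he
  rw [mem_DF] at hl hl'
  obtain ⟨i, h1, _, h3⟩ := hl
  obtain ⟨j, h4, _, h5⟩ := hl'
  rw [← h3, ← h5] at he
  have := h2 i (by omega) j (by omega) he
  rw [← h3, ← h5, this]

theorem DF_fst {π : ℕ → Sym2 (Fin N)} {n : ℕ} {l : Sym2 (Fin N) × Sym2 (Fin N)}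
    (hl : l ∈ DF π n) : l.1 ∈ Cs π n := by
  rw [mem_DF] at hl
  obtain ⟨i, h1, h2, h3⟩ := hl
  rw [← h3]
  exact mem_Cs.2 ⟨i, by omega, by omega, rfl⟩

/-! ### Maker's game: Maker chooses the partners -/

/-- the candidates for the partner of `e` -/
noncomputable def cand (C K : Finset (Sym2 (Fin N))) (e : Sym2 (Fin N)) :
    Finset (Sym2 (Fin N)) :=
  (Finset.univ : Finset (Sym2 (Fin N))).filter
    (fun f => ¬ f.IsDiag ∧ f ∉ C ∧ f ∉ K ∧ f ≠ e)

/-- the best partner of `e` -/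
noncomputable def pb (g : ℕ → ℝ) (C K : Finset (Sym2 (Fin N)))
    (D : Finset (Sym2 (Fin N) × Sym2 (Fin N))) (F : Finset (Finset (Fin N)))
    (e : Sym2 (Fin N)) : Sym2 (Fin N) :=
  if h : (cand C K e).Nonempty then
    (Finset.exists_max_image (cand C K e) (fun f => zc g C K D F e f) h).choose else e

theorem pb_max (g : ℕ → ℝ) {C K : Finset (Sym2 (Fin N))}
    (D : Finset (Sym2 (Fin N) × Sym2 (Fin N))) (F : Finset (Finset (Fin N)))
    {e f : Sym2 (Fin N)} (h1 : ¬ f.IsDiag) (h2 : f ∉ C) (h3 : f ∉ K) (h4 : f ≠ e) :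
    zc g C K D F e f ≤ zc g C K D F e (pb g C K D F e) := by
  have hf : f ∈ cand C K e := Finset.mem_filter.2 ⟨Finset.mem_univ _, h1, h2, h3, h4⟩
  unfold pb
  rw [dif_pos ⟨f, hf⟩]
  exact (Finset.exists_max_image (cand C K e) (fun f => zc g C K D F e f)
    ⟨f, hf⟩).choose_spec.2 f hf

/-- the links and the current family in the game of Maker after `n` moves -/
noncomputable def SM (q : ℕ) (g : ℕ → ℝ) (π : ℕ → Sym2 (Fin N)) :
    ℕ → Finset (Sym2 (Fin N) × Sym2 (Fin N)) × Finset (Finset (Fin N))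
  | 0 => (∅, Fmax q g (Cs π 0) (Ks π 0) ∅)
  | n + 1 =>
    ((if n % 4 < 2 then insert (π n, pb g (Cs π n) (Ks π n) (SM q g π n).1 (SM q g π n).2 (π n))
        (SM q g π n).1 else (SM q g π n).1),
      (if (n + 1) % 4 = 0 then Fmax q g (Cs π (n + 1)) (Ks π (n + 1)) (SM q g π n).1
        else (SM q g π n).2))

theorem SM_fst_claim {q : ℕ} {g : ℕ → ℝ} {π : ℕ → Sym2 (Fin N)} {n : ℕ} (h : n % 4 < 2) :
    (SM q g π (n + 1)).1 =
      insert (π n, pb g (Cs π n) (Ks π n) (SM q g π n).1 (SM q g π n).2 (π n))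
        (SM q g π n).1 := by
  show (if n % 4 < 2 then _ else _) = _
  rw [if_pos h]

theorem SM_fst_kill {q : ℕ} {g : ℕ → ℝ} {π : ℕ → Sym2 (Fin N)} {n : ℕ} (h : 2 ≤ n % 4) :
    (SM q g π (n + 1)).1 = (SM q g π n).1 := by
  show (if n % 4 < 2 then _ else _) = _
  rw [if_neg (by omega)]

theorem SM_snd_same {q : ℕ} {g : ℕ → ℝ} {π : ℕ → Sym2 (Fin N)} {n : ℕ}
    (h : (n + 1) % 4 ≠ 0) : (SM q g π (n + 1)).2 = (SM q g π n).2 := by
  show (if (n + 1) % 4 = 0 then _ else _) = _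
  rw [if_neg h]

/-- At the beginning of a turn of Maker the family is maximal. -/
theorem SM_snd {q : ℕ} {g : ℕ → ℝ} {π : ℕ → Sym2 (Fin N)} {n : ℕ} (h : n % 4 = 0) :
    (SM q g π n).2 = Fmax q g (Cs π n) (Ks π n) (SM q g π n).1 := by
  cases n with
  | zero => rfl
  | succ n =>
    rw [SM_fst_kill (n := n) (by omega)]
    show (if (n + 1) % 4 = 0 then _ else _) = _
    rw [if_pos h]

theorem SM_congr {q : ℕ} {g : ℕ → ℝ} {π π' : ℕ → Sym2 (Fin N)} :
    ∀ {n : ℕ}, (∀ i < n, π i = π' i) → SM q g π n = SM q g π' n := by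
  intro n
  induction n with
  | zero =>
    intro _
    show (_, _) = (_, _)
    rw [Cs_congr (π := π) (π' := π') (n := 0) (by omega),
      Ks_congr (π := π) (π' := π') (n := 0) (by omega)]
  | succ n ih =>
    intro h
    have h1 := ih (fun i hi => h i (by omega))
    have h2 := Cs_congr (n := n) (fun i hi => h i (by omega))
    have h3 := Ks_congr (n := n) (fun i hi => h i (by omega))
    have h4 := Cs_congr h
    have h5 := Ks_congr h
    show ((if n % 4 < 2 then _ else _), _) = ((if n % 4 < 2 then _ else _), _)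
    rw [h1, h2, h3, h4, h5, h n (by omega)]

theorem SM_fst {q : ℕ} {g : ℕ → ℝ} {π : ℕ → Sym2 (Fin N)} :
    ∀ {n : ℕ} {l : Sym2 (Fin N) × Sym2 (Fin N)}, l ∈ (SM q g π n).1 → l.1 ∈ Cs π n := by
  intro n
  induction n with
  | zero =>
    intro l hl
    exact absurd hl (Finset.notMem_empty l)
  | succ n ih =>
    intro l hl
    by_cases h : n % 4 < 2
    · rw [SM_fst_claim h, Finset.mem_insert] at hl
      rw [Cs_succ_claim h, Finset.mem_insert]
      rcases hl with hl | hl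
      · left
        rw [hl]
      · exact Or.inr (ih hl)
    · rw [SM_fst_kill (by omega)] at hl
      rw [Cs_succ_kill (by omega)]
      exact ih hl

theorem SM_fun {q M : ℕ} {g : ℕ → ℝ} {π : ℕ → Sym2 (Fin N)}
    (h2 : ∀ i < M, ∀ j < M, π i = π j → i = j) : ∀ {n : ℕ}, n ≤ M → Fun (SM q g π n).1 := by
  intro n
  induction n with
  | zero =>
    intro _ l hl
    exact absurd hl (Finset.notMem_empty l)
  | succ n ih =>
    intro hn
    by_cases h : n % 4 < 2
    · rw [SM_fst_claim h]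
      have hnew : ∀ l ∈ (SM q g π n).1, l.1 ≠ π n := by
        intro l hl he
        have h3 := SM_fst hl
        rw [he, mem_Cs] at h3
        obtain ⟨i, hi, _, h4⟩ := h3
        have := h2 i (by omega) n (by omega) h4
        omega
      intro l hl l' hl' he
      rw [Finset.mem_insert] at hl hl'
      rcases hl with hl | hl <;> rcases hl' with hl' | hl'
      · rw [hl, hl']
      · exact absurd (he.symm.trans (by rw [hl])) (hnew l' hl')
      · exact absurd (he.trans (by rw [hl'])) (hnew l hl)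
      · exact ih (by omega) l hl l' hl' he
    · rw [SM_fst_kill (by omega)]
      exact ih (by omega)

end C0l1
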