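import Pool.Agent.W_c0l1_h38.Game
import Pool.Agent.W_c0l1_h38.NumE
import Pool.Agent.W_c0ce05_h38.Numbers

/-! # The winning strategies and the final bounds -/

set_option autoImplicit false

namespace C0l1

open scoped Classical
open C0lo

variable {N q : ℕ}

theorem val_ge (C K : Finset (Sym2 (Fin N))) (D : Finset (Sym2 (Fin N) × Sym2 (Fin N))) :
    Lam (gg N q) C K D (QQ N q) ≤ val q C K D :=
  Fmax_max fun _ hA => QQ_card hA

theorem Cs_zero (π : ℕ → Sym2 (Fin N)) : Cs π 0 = ∅ := by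
  unfold Cs
  rw [Finset.range_zero, Finset.filter_empty, Finset.image_empty]

theorem Ks_zero (π : ℕ → Sym2 (Fin N)) : Ks π 0 = ∅ := by
  unfold Ks
  rw [Finset.range_zero, Finset.filter_empty, Finset.image_empty]

theorem val_zero (h : Cond N q) (π : ℕ → Sym2 (Fin N)) :
    T0 N q / 2 ≤ val q (Cs π 0) (Ks π 0) (DM q π 0) := by
  refine le_trans ?_ (val_ge _ _ _)
  have h0 : DM q π 0 = ∅ := rfl
  rw [Cs_zero, Ks_zero, h0]
  have h1 := init_x (N := N) (q := q)
  have h2 := init_y_le h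
  have h3 := T0_pos h
  unfold Lam
  linarith

theorem val_two (h : Cond N q) {π : ℕ → Sym2 (Fin N)} (h01 : π 0 ≠ π 1) :
    T0 N q / 2 ≤ val q (Cs π 2) (Ks π 2) (DF π 2) := by
  refine le_trans ?_ (val_ge _ _ _)
  have hC1 : Cs π 1 = insert (π 0) ∅ := by
    rw [Cs_succ_claim (n := 0) (by omega), Cs_zero]
  have hC2 : Cs π 2 = insert (π 1) (insert (π 0) ∅) := by
    rw [Cs_succ_claim (n := 1) (by omega), hC1]
  have hK : Ks π 2 = ∅ := by
    rw [Ks_succ_claim (n := 1) (by omega), Ks_succ_claim (n := 0) (by omega), Ks_zero]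
  have hD : DF π 2 = insert (π 0, π 1) ∅ := by
    rw [DF_claim (n := 0) (by omega), DF_zero]
  rw [hC2, hK, hD]
  have he0 : π 0 ∉ (∅ : Finset (Sym2 (Fin N))) := Finset.notMem_empty _
  have he1 : π 1 ∉ insert (π 0) (∅ : Finset (Sym2 (Fin N))) := by
    intro hm
    rcases Finset.mem_insert.1 hm with h | h
    · exact h01 h.symm
    · exact Finset.notMem_empty _ h
  have h1 := init_x (N := N) (q := q)
  have h2 := init_y_le h
  have h3 := T0_pos h
  have hX : ∑ A ∈ QQ N q, x 2 ∅ ∅ A ≤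
      ∑ A ∈ QQ N q, x 2 (insert (π 1) (insert (π 0) ∅)) ∅ A := by
    refine Finset.sum_le_sum fun A _ => ?_
    have hx : 0 ≤ x 2 ∅ ∅ A := x_nonneg (by norm_num)
    rw [x_claim two_ne_zero he1, x_claim two_ne_zero he0]
    split_ifs <;> linarith
  have hY : ∑ p ∈ QQ N q ×ˢ QQ N q,
      y (gg N q) (insert (π 1) (insert (π 0) ∅)) ∅ (insert (π 0, π 1) ∅) p ≤
      4 * ∑ p ∈ QQ N q ×ˢ QQ N q, y (gg N q) ∅ ∅ ∅ p := by
    rw [Finset.mul_sum]
    refine Finset.sum_le_sum fun p _ => ?_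
    have hy : 0 ≤ y (gg N q) ∅ ∅ ∅ p := y_nonneg (gg_nonneg N q)
    rw [y_claim_two he0 he1 (Finset.notMem_empty _)]
    split_ifs <;> linarith
  unfold Lam
  linarith

theorem rounds_le (h : Cond N q) {r : ℕ} (hr : 4 * r ≤ N.choose 2) :
    3 * (N * th N q) < T0 N q / 2 - 10 * th N q * r := by
  have h2 := th_pos h
  have h5 := T0_pos h
  have hN : (401 : ℝ) ≤ N := by exact_mod_cast h.hN
  have h3 : (4 * r : ℝ) ≤ N * (N - 1) / 2 := by
    have h4 : ((N.choose 2 : ℕ) : ℝ) = N * (N - 1) / 2 := Nat.cast_choose_two ℝ N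
    rw [← h4]
    exact_mod_cast hr
  have hs : (20 : ℝ) < √N := by
    rw [Real.lt_sqrt (by norm_num)]
    linarith
  have hN2 : (0 : ℝ) < (N : ℝ) ^ 2 := by positivity
  have hth : (N : ℝ) ^ 2 * th N q * √N = T0 N q := by
    unfold th
    field_simp
  have h6 : 3 * (N : ℝ) + 10 * r ≤ 2 * (N : ℝ) ^ 2 := by nlinarith
  have h7 : (3 * (N : ℝ) + 10 * r) * th N q ≤ 2 * (N : ℝ) ^ 2 * th N q :=
    mul_le_mul_of_nonneg_right h6 h2.le
  have h8 : 20 * ((N : ℝ) ^ 2 * th N q) ≤ T0 N q := by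
    rw [← hth]
    have h9 : 0 < (N : ℝ) ^ 2 * th N q := by positivity
    nlinarith
  linarith

/-- Maker's strategy wins. -/
theorem winM (h : Cond N q) : ∃ σ : List (Sym2 (Fin N)) → Sym2 (Fin N),
    (∀ l : List (Sym2 (Fin N)), l.Nodup → (∀ e ∈ l, ¬ Sym2.IsDiag e) →
        l.length < N.choose 2 → ¬ Sym2.IsDiag (σ l) ∧ σ l ∉ l) ∧
    ∀ π : ℕ → Sym2 (Fin N),
      (∀ i < N.choose 2, ¬ Sym2.IsDiag (π i)) →
      (∀ i < N.choose 2, ∀ j < N.choose 2, π i = π j → i = j) →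
      (∀ i < N.choose 2, i % 4 < 2 → π i = σ ((List.range i).map π)) →
      ∃ s : Finset (Fin N), s.card = q ∧
        ∀ x ∈ s, ∀ y ∈ s, x ≠ y →
          ∃ i < N.choose 2, i % 4 < 2 ∧ π i = s(x, y) := by
  have hN := h.hN
  have : NeZero N := ⟨by omega⟩
  refine ⟨greedy (vM N q), fun l _ _ hl => greedy_legal _ l hl, ?_⟩
  intro π h1 h2 h3
  have hall : ∀ r, 4 * r ≤ N.choose 2 → T0 N q / 2 - 10 * th N q * r ≤
      val q (Cs π (4 * r)) (Ks π (4 * r)) (DM q π (4 * r)) := by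
    intro r
    induction r with
    | zero =>
      intro _
      have := val_zero h π
      simpa using this
    | succ r ih =>
      intro hr
      have h4 := stepM h1 h2 h h3 (n := 4 * r) (by omega) (by omega)
      have h5 := ih (by omega)
      have h6 : 4 * (r + 1) = 4 * r + 4 := by ring
      rw [h6]
      push_cast
      linarith
  have hR : 4 * (N.choose 2 / 4) ≤ N.choose 2 := Nat.mul_div_le _ _
  exact finish h1 h2 h (n := 4 * (N.choose 2 / 4)) hR (by omega)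
    (SM_fun (M := N.choose 2) h2 hR) (lt_of_lt_of_le (rounds_le h hR) (hall _ hR))

/-- Forcer's strategy wins. -/
theorem winF (h : Cond N q) : ∃ σ : List (Sym2 (Fin N)) → Sym2 (Fin N),
    (∀ l : List (Sym2 (Fin N)), l.Nodup → (∀ e ∈ l, ¬ Sym2.IsDiag e) →
        l.length < N.choose 2 → ¬ Sym2.IsDiag (σ l) ∧ σ l ∉ l) ∧
    ∀ π : ℕ → Sym2 (Fin N),
      (∀ i < N.choose 2, ¬ Sym2.IsDiag (π i)) →
      (∀ i < N.choose 2, ∀ j < N.choose 2, π i = π j → i = j) →
      (∀ i < N.choose 2, 2 ≤ i % 4 → π i = σ ((List.range i).map π)) →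
      ∃ s : Finset (Fin N), s.card = q ∧
        ∀ x ∈ s, ∀ y ∈ s, x ≠ y →
          ∃ i < N.choose 2, i % 4 < 2 ∧ π i = s(x, y) := by
  have hN := h.hN
  have : NeZero N := ⟨by omega⟩
  have hch : 4 ≤ N.choose 2 := by
    have h5 : Nat.choose 4 2 ≤ N.choose 2 := Nat.choose_le_choose 2 (by omega)
    have h6 : Nat.choose 4 2 = 6 := by decide
    omega
  refine ⟨greedy (vF N q), fun l _ _ hl => greedy_legal _ l hl, ?_⟩
  intro π h1 h2 h3
  have hall : ∀ r, 4 * r + 2 ≤ N.choose 2 →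
      T0 N q / 2 - 10 * th N q * r ≤
        val q (Cs π (4 * r + 2)) (Ks π (4 * r + 2)) (DF π (4 * r + 2)) := by
    intro r
    induction r with
    | zero =>
      intro _
      have := val_two h (π := π) (fun h01 => by
        have := h2 0 (by omega) 1 (by omega) h01
        omega)
      simpa using this
    | succ r ih =>
      intro hr
      have h4 := stepF h1 h2 h h3 (n := 4 * r + 2) (by omega) (by omega)
      have h5 := ih (by omega)
      have h6 : 4 * (r + 1) + 2 = 4 * r + 2 + 4 := by ring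
      rw [h6]
      push_cast
      linarith
  have hR : 4 * ((N.choose 2 - 2) / 4) + 2 ≤ N.choose 2 := by omega
  exact finish h1 h2 h (n := 4 * ((N.choose 2 - 2) / 4) + 2) hR (by omega)
    (DF_fun (M := N.choose 2) hR h2)
    (lt_of_lt_of_le (rounds_le h (r := (N.choose 2 - 2) / 4) (by omega)) (hall _ hR))

theorem le_achievement (h : Cond N q) : q ≤ C0ce.achievement N := by
  have hN := h.hN
  refine le_csSup ?_ ⟨by have := h.hq; omega, winM h⟩
  refine ⟨N, ?_⟩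
  rintro k ⟨_, σ, hσ, hwin⟩
  obtain ⟨π, h1, h2, h3, _⟩ := C0ce.play_exists (by omega) (fun i => i % 4 < 2) σ hσ
    (fun _ _ => 0)
  obtain ⟨s, hs, _⟩ := hwin π h1 h2 h3
  rw [← hs]
  exact (Finset.card_le_univ s).trans (by rw [Fintype.card_fin])

theorem le_avoidance (h : Cond N q) : q ≤ C0ce.avoidance N := by
  have hN := h.hN
  refine le_csSup ?_ ⟨by have := h.hq; omega, winF h⟩
  refine ⟨N, ?_⟩
  rintro k ⟨_, σ, hσ, hwin⟩
  obtain ⟨π, h1, h2, h3, _⟩ := C0ce.play_exists (by omega) (fun i => 2 ≤ i % 4) σ hσ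
    (fun _ _ => 0)
  obtain ⟨s, hs, _⟩ := hwin π h1 h2 h3
  rw [← hs]
  exact (Finset.card_le_univ s).trans (by rw [Fintype.card_fin])

/-- the lower bounds for both numbers, at precision `O(1)` -/
theorem lower : ∃ N₀ : ℕ, ∀ N : ℕ, N₀ ≤ N →
    2 * Real.logb 2 N - 2 * Real.logb 2 (Real.logb 2 N) - 49 ≤ (C0ce.achievement N : ℝ) ∧
    2 * Real.logb 2 N - 2 * Real.logb 2 (Real.logb 2 N) - 49 ≤ (C0ce.avoidance N : ℝ) := by
  obtain ⟨N₀, hN₀⟩ := Filter.eventually_atTop.1 cond_eventually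
  refine ⟨N₀, fun N hN => ?_⟩
  obtain ⟨h1, h2⟩ := hN₀ N hN
  exact ⟨h2.trans (by exact_mod_cast le_achievement h1),
    h2.trans (by exact_mod_cast le_avoidance h1)⟩

end C0l1
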